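import Pool.Agent.Lib.MP_4a7e1d_al.FinK

/-!
The quaternion division algebra over the three-adic numbers satisfies the constraints.
-/

set_option autoImplicit false

open scoped Quaternion

namespace Pool.Agent.Lib.MP_4a7e1d_al.Fin

instance fact3 : Fact (Nat.Prime 3) := ⟨Nat.prime_three⟩

/-- Reduction of three-adic integers modulo 27. -/
noncomputable def t27 : ℤ_[3] →+* ZMod 27 := PadicInt.toZModPow 3

theorem dvd_of_not_unit {z : ℤ_[3]} (h : ¬ IsUnit z) : ∃ s, z = 3 * s := by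
  rw [PadicInt.not_isUnit_iff, PadicInt.norm_lt_one_iff_dvd] at h
  exact h

theorem unit_iff {z : ℤ_[3]} : IsUnit z ↔ r3 (t27 z) ≠ 0 := by
  refine ⟨fun h => ((h.map t27).map r3).ne_zero, fun h => by_contra fun h1 => h ?_⟩
  obtain ⟨s, rfl⟩ := dvd_of_not_unit h1
  rw [map_mul, map_mul, map_ofNat, map_ofNat, show (3 : ZMod 3) = 0 from rfl, zero_mul]

theorem three_ne : (3 : ℚ_[3]) ≠ 0 := by norm_num

theorem val_three : Padic.valuation (3 : ℚ_[3]) = 1 := Padic.valuation_p (p := 3)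

theorem coe_ne {u : ℤ_[3]} (hu : IsUnit u) : (u : ℚ_[3]) ≠ 0 := PadicInt.coe_ne_zero.2 hu.ne_zero

theorem val_unit {u : ℤ_[3]} (hu : IsUnit u) : Padic.valuation (u : ℚ_[3]) = 0 := by
  have h1 := Padic.norm_eq_zpow_neg_valuation (coe_ne hu)
  rw [← PadicInt.norm_def, PadicInt.isUnit_iff.1 hu, eq_comm,
    zpow_eq_one_iff_right₀ (by norm_num) (by norm_num), neg_eq_zero] at h1
  exact h1

theorem val_eq (n : ℤ) {u : ℤ_[3]} (hu : IsUnit u) :
    Padic.valuation ((3 : ℚ_[3]) ^ n * (u : ℚ_[3])) = n := by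
  rw [Padic.valuation_mul (zpow_ne_zero _ three_ne) (coe_ne hu), Padic.valuation_zpow, val_three,
    val_unit hu, mul_one, add_zero]

theorem exists_unit {q : ℚ_[3]} (hq : q ≠ 0) :
    ∃ u : ℤ_[3], IsUnit u ∧ q = 3 ^ q.valuation * u := by
  have h1 : ‖q * 3 ^ (-q.valuation)‖ = 1 := by
    have := Padic.norm_p_zpow (p := 3) (-q.valuation)
    rw [Nat.cast_ofNat] at this
    rw [norm_mul, this, Padic.norm_eq_zpow_neg_valuation hq, ← zpow_add₀ (by norm_num)]
    simp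
  refine ⟨⟨_, h1.le⟩, PadicInt.isUnit_iff.2 h1, ?_⟩
  change q = 3 ^ q.valuation * (q * 3 ^ (-q.valuation))
  rw [mul_left_comm, ← zpow_add₀ three_ne, add_neg_cancel, zpow_zero, mul_one]

open Classical in
/-- The unit part modulo 27. -/
noncomputable def up (q : ℚ_[3]) : ZMod 27 :=
  if h : q = 0 then 0 else t27 (exists_unit h).choose

theorem up_eq (n : ℤ) {u : ℤ_[3]} (hu : IsUnit u) : up ((3 : ℚ_[3]) ^ n * u) = t27 u := by
  have h0 : (3 : ℚ_[3]) ^ n * u ≠ 0 := mul_ne_zero (zpow_ne_zero _ three_ne) (coe_ne hu)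
  have h1 := (exists_unit h0).choose_spec.2
  unfold up
  rw [dif_neg h0]
  generalize (exists_unit h0).choose = u' at h1
  rw [val_eq n hu] at h1
  rw [Subtype.ext (mul_left_cancel₀ (zpow_ne_zero _ three_ne) h1)]

theorem up_unit {u : ℤ_[3]} (hu : IsUnit u) : up (u : ℚ_[3]) = t27 u := by
  have := up_eq 0 hu
  rwa [zpow_zero, one_mul] at this

theorem up_mul {p q : ℚ_[3]} (hp : p ≠ 0) (hq : q ≠ 0) : up (p * q) = up p * up q := by
  obtain ⟨u, hu, e⟩ := exists_unit hp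
  obtain ⟨u', hu', e'⟩ := exists_unit hq
  generalize p.valuation = m at e
  generalize q.valuation = n at e'
  rw [e, e', up_eq m hu, up_eq n hu', mul_mul_mul_comm, ← zpow_add₀ three_ne, ← PadicInt.coe_mul,
    up_eq _ (hu.mul hu'), map_mul]

/-- The quaternion algebra. -/
def D : Type := ℍ[ℚ_[3], -1, 0, -3]

noncomputable instance ringD : Ring D := inferInstanceAs (Ring ℍ[ℚ_[3], -1, 0, -3])

/-- The reduced norm. -/
noncomputable def N (x : ℍ[ℚ_[3], -1, 0, -3]) : ℚ_[3] :=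
  x.re ^ 2 + x.imI ^ 2 + 3 * x.imJ ^ 2 + 3 * x.imK ^ 2

theorem N_mul (x y : ℍ[ℚ_[3], -1, 0, -3]) : N (x * y) = N x * N y := by
  simp only [N, QuaternionAlgebra.re_mul, QuaternionAlgebra.imI_mul, QuaternionAlgebra.imJ_mul,
    QuaternionAlgebra.imK_mul]
  ring

theorem N_one_add (x : ℍ[ℚ_[3], -1, 0, -3]) : N (1 + x) = 1 + 2 * x.re + N x := by
  simp [N]; ring

theorem N_neg (x : ℍ[ℚ_[3], -1, 0, -3]) : N (-x) = N x := by simp [N]

theorem N_one : N 1 = 1 := by simp [N]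

theorem struct {x : ℍ[ℚ_[3], -1, 0, -3]} (hx : x ≠ 0) : ∃ (m : ℤ) (a b c d u : ℤ_[3]),
    IsUnit u ∧ ((N x = 3 ^ (2 * m) * u ∧ x.re = 3 ^ m * a ∧
      u = a ^ 2 + b ^ 2 + 3 * c ^ 2 + 3 * d ^ 2) ∨
      (N x = 3 ^ (2 * m + 1) * u ∧ x.re = 3 ^ (m + 1) * a)) := by
  classical
  obtain ⟨μ, hμ, hmax⟩ := Finset.exists_max_image ({x.re, x.imI, x.imJ, x.imK} : Finset ℚ_[3])
    (fun q => ‖q‖) (by simp)
  have μ0 : μ ≠ 0 := by
    rintro rfl
    simp only [Finset.mem_insert, Finset.mem_singleton, norm_zero, norm_le_zero_iff,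
      forall_eq_or_imp, forall_eq] at hmax
    exact hx (QuaternionAlgebra.ext hmax.1 hmax.2.1 hmax.2.2.1 hmax.2.2.2)
  obtain ⟨u0, hu0, e0⟩ := exists_unit μ0
  generalize μ.valuation = m at e0
  have z0 : (3 : ℚ_[3]) ^ m ≠ 0 := zpow_ne_zero _ three_ne
  have key : ∀ q ∈ ({x.re, x.imI, x.imJ, x.imK} : Finset ℚ_[3]),
      ∃ a : ℤ_[3], q = 3 ^ m * a ∧ (q = μ → IsUnit a) := fun q hq => by
    have h1 : ‖q / 3 ^ m‖ ≤ 1 := by
      have := hmax q hq
      rw [e0, norm_mul, ← PadicInt.norm_def, PadicInt.isUnit_iff.1 hu0, mul_one] at this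
      rw [norm_div]
      exact div_le_one_of_le₀ this (norm_nonneg _)
    refine ⟨⟨_, h1⟩, (mul_div_cancel₀ _ z0).symm, fun e => ?_⟩
    convert hu0 using 1
    refine Subtype.ext ?_
    change q / 3 ^ m = u0
    rw [e, e0, mul_div_cancel_left₀ _ z0]
  obtain ⟨a, ea, ua⟩ := key x.re (by simp)
  obtain ⟨b, eb, ub⟩ := key x.imI (by simp)
  obtain ⟨c, ec, uc⟩ := key x.imJ (by simp)
  obtain ⟨d, ed, ud⟩ := key x.imK (by simp)
  have e2 : (3 : ℚ_[3]) ^ (2 * m) = (3 ^ m) ^ 2 := by rw [mul_comm, zpow_mul, zpow_ofNat]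
  have c3 : ((3 : ℤ_[3]) : ℚ_[3]) = 3 := rfl
  by_cases hab : IsUnit a ∨ IsUnit b
  · refine ⟨m, a, b, c, d, _, ?_, Or.inl ⟨?_, ea, rfl⟩⟩
    · simp only [unit_iff, map_add, map_mul, map_pow, map_ofNat] at hab ⊢
      revert hab
      generalize r3 (t27 a) = α, r3 (t27 b) = β, r3 (t27 c) = γ, r3 (t27 d) = δ
      revert α β γ δ; decide
    · rw [N, ea, eb, ec, ed, e2]; push_cast; rw [c3]; ring
  · have hcd : IsUnit c ∨ IsUnit d := by
      simp only [Finset.mem_insert, Finset.mem_singleton] at hμ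
      rcases hμ with e | e | e | e
      · exact absurd (Or.inl (ua e.symm)) hab
      · exact absurd (Or.inr (ub e.symm)) hab
      · exact Or.inl (uc e.symm)
      · exact Or.inr (ud e.symm)
    rw [not_or] at hab
    obtain ⟨a, rfl⟩ := dvd_of_not_unit hab.1
    obtain ⟨b, rfl⟩ := dvd_of_not_unit hab.2
    refine ⟨m, a, b, c, d, 3 * a ^ 2 + 3 * b ^ 2 + c ^ 2 + d ^ 2, ?_, Or.inr ⟨?_, ?_⟩⟩
    · simp only [unit_iff, map_add, map_mul, map_pow, map_ofNat] at hcd ⊢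
      revert hcd
      generalize r3 (t27 a) = α, r3 (t27 b) = β, r3 (t27 c) = γ, r3 (t27 d) = δ
      revert α β γ δ; decide
    · rw [N, ea, eb, ec, ed, zpow_add_one₀ three_ne, e2]; push_cast; rw [c3]; ring
    · rw [ea, zpow_add_one₀ three_ne]; push_cast; rw [c3]; ring

theorem N_ne {x : ℍ[ℚ_[3], -1, 0, -3]} (hx : x ≠ 0) : N x ≠ 0 := by
  obtain ⟨m, a, b, c, d, u, hu, h | h⟩ := struct hx <;> rw [h.1] <;>
    exact mul_ne_zero (zpow_ne_zero _ three_ne) (coe_ne hu)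

theorem unit_or (x : ℍ[ℚ_[3], -1, 0, -3]) : IsUnit x ∨ x = 0 := by
  refine or_iff_not_imp_right.2 fun hx => ?_
  have h := N_ne hx
  refine ⟨⟨x, ⟨x.re / N x, -x.imI / N x, -x.imJ / N x, -x.imK / N x⟩, ?_, ?_⟩, rfl⟩ <;>
    ext <;> simp <;> field_simp <;> simp only [N] <;> ring

instance : Nontrivial D := inferInstanceAs (Nontrivial ℍ[ℚ_[3], -1, 0, -3])

noncomputable instance divD : DivisionRing D := DivisionRing.ofIsUnitOrEqZero unit_or

/-- The valuation of the norm modulo seven. -/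
noncomputable def wD (x : D) : ZMod 7 := ((N x).valuation : ℤ)

/-- The unit part of the norm modulo 27. -/
noncomputable def ρD (x : D) : ZMod 27 := up (N x)

theorem lev {x : ℍ[ℚ_[3], -1, 0, -3]} (hx : x ≠ 0) (k : ℕ) (hk : 2 * (k : ℤ) + 1 ≤ (N x).valuation) :
    (N (1 + x)).valuation = 0 ∧ ∃ s, up (N (1 + x)) = 1 + 3 ^ (k + 1) * s := by
  have key : ∀ (n : ℤ) (a : ℤ_[3]), (k : ℤ) + 1 ≤ n →
      ∃ s : ℤ_[3], (3 : ℚ_[3]) ^ n * a = ((3 ^ (k + 1) * s : ℤ_[3]) : ℚ_[3]) := fun n a h => by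
    obtain ⟨j, rfl⟩ : ∃ j : ℕ, n = ((k + 1 + j : ℕ) : ℤ) := ⟨(n - k - 1).toNat, by omega⟩
    refine ⟨3 ^ j * a, ?_⟩
    have c3 : ((3 : ℤ_[3]) : ℚ_[3]) = 3 := rfl
    rw [zpow_natCast]; push_cast; rw [c3]; ring
  have : ∃ s : ℤ_[3], N (1 + x) = ((1 + 3 ^ (k + 1) * s : ℤ_[3]) : ℚ_[3]) := by
    have c2 : ((2 : ℤ_[3]) : ℚ_[3]) = 2 := rfl
    obtain ⟨m, a, b, c, d, u, hu, ⟨h1, h2, -⟩ | ⟨h1, h2⟩⟩ := struct hx
    · rw [h1, val_eq _ hu] at hk
      rw [N_one_add, h1, h2]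
      obtain ⟨s, hs⟩ := key m a (by omega)
      obtain ⟨s', hs'⟩ := key (2 * m) u (by omega)
      refine ⟨2 * s + s', ?_⟩
      rw [hs, hs']; push_cast; rw [c2]; ring
    · rw [h1, val_eq _ hu] at hk
      rw [N_one_add, h1, h2]
      obtain ⟨s, hs⟩ := key (m + 1) a (by omega)
      obtain ⟨s', hs'⟩ := key (2 * m + 1) u (by omega)
      refine ⟨2 * s + s', ?_⟩
      rw [hs, hs']; push_cast; rw [c2]; ring
  obtain ⟨s, hs⟩ := this
  have hu : IsUnit (1 + 3 ^ (k + 1) * s) := by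
    rw [unit_iff]
    simp only [map_add, map_mul, map_pow, map_ofNat, map_one]
    rw [show (3 : ZMod 3) = 0 from rfl, pow_succ, mul_zero, zero_mul, add_zero]
    exact one_ne_zero
  rw [hs, val_unit hu, up_unit hu]
  exact ⟨rfl, t27 s, by simp only [map_add, map_mul, map_pow, map_ofNat, map_one]⟩

theorem wD_mul (x y : D) (hx : x ≠ 0) (hy : y ≠ 0) : wD (x * y) = wD x + wD y := by
  have := N_mul x y
  unfold wD
  rw [← Int.cast_add, ← Padic.valuation_mul (N_ne hx) (N_ne hy), ← this]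
  rfl

theorem ρD_mul (x y : D) (hx : x ≠ 0) (hy : y ≠ 0) : ρD (x * y) = ρD x * ρD y := by
  have := N_mul x y
  unfold ρD
  rw [← up_mul (N_ne hx) (N_ne hy), ← this]
  rfl

theorem up_one : up 1 = 1 := by
  have := up_unit isUnit_one
  rwa [map_one] at this

theorem lev0 {x : D} (hx : x ≠ 0) (hk : 1 ≤ (N x).valuation) :
    wD (1 + x) = 0 ∧ r3 (ρD (1 + x)) = 1 := by
  obtain ⟨h1, s, h2⟩ := lev hx 0 (by omega)
  refine ⟨(congrArg Int.cast h1).trans Int.cast_zero, (congrArg r3 h2).trans ?_⟩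
  clear h2; revert s; decide

theorem lev1 {x : D} (hx : x ≠ 0) (hk : 3 ≤ (N x).valuation) : r9 (ρD (1 + x)) = 1 := by
  obtain ⟨-, s, h2⟩ := lev hx 1 (by omega)
  refine (congrArg r9 h2).trans ?_
  clear h2; revert s; decide

theorem lev2 {x : D} (hx : x ≠ 0) (hk : 5 ≤ (N x).valuation) : ρD (1 + x) = 1 := by
  obtain ⟨-, s, h2⟩ := lev hx 2 (by omega)
  refine h2.trans ?_
  clear h2; revert s; decide

theorem dvd_of_cast {n : ℤ} {i : ℕ} (h : (n : ZMod 7) = i) : (7 : ℤ) ∣ n - i := by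
  have := (ZMod.intCast_zmod_eq_zero_iff_dvd (n - i) 7).1 (by
    rw [Int.cast_sub, h, Int.cast_natCast, sub_self])
  exact_mod_cast this

theorem val_le {n : ℤ} (h : 0 < n) : (((n : ZMod 7).val : ℕ) : ℤ) ≤ n := by
  rw [ZMod.val_intCast]; omega

theorem fin6 : ∀ a u : ZMod 27, r9 (1 + 6 * a + 9 * u) = 1 → r3 a = 0 := by decide +kernel

theorem fin7 : ∀ b c d : ZMod 27, -4 * (b ^ 2 + 3 * c ^ 2 + 3 * d ^ 2) ≠ 9 := by decide +kernel

theorem allowed (x : D) (hx : x ≠ 0) (hx1 : 1 + x ≠ 0) :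
    Allowed (wD x) (ρD x) (wD (1 + x)) (ρD (1 + x)) := by
  have c2 : ((2 : ℤ_[3]) : ℚ_[3]) = 2 := rfl
  rcases lt_trichotomy 0 (N x).valuation with h | h | h
  · obtain ⟨a1, a2⟩ := lev0 hx h
    have a3 : (((wD x).val : ℕ) : ℤ) ≤ (N x).valuation := val_le h
    refine ⟨fun _ => Or.inl a1, fun _ _ => a2, fun h3 _ => lev1 hx (by omega),
      fun h5 _ => lev2 hx (by omega), fun h2 _ h9 h1 => ?_, fun h0 _ _ h1 => ?_⟩
    · have b1 := dvd_of_cast (i := 2) h2
      have b2 : (N x).valuation = 2 := by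
        by_contra b3
        exact h1 (lev2 hx (by omega))
      obtain ⟨m, a, b, c, d, u, hu, ⟨e1, e2, e3⟩ | ⟨e1, -⟩⟩ := struct hx
      · rw [e1, val_eq _ hu] at b2
        obtain rfl : m = 1 := by omega
        have e4 : N (1 + x : D) = ((1 + 6 * a + 9 * u : ℤ_[3]) : ℚ_[3]) := by
          have c6 : ((6 : ℤ_[3]) : ℚ_[3]) = 6 := rfl
          have c9 : ((9 : ℤ_[3]) : ℚ_[3]) = 9 := rfl
          refine (N_one_add x).trans ?_
          rw [e1, e2]; push_cast; rw [c6, c9]; norm_num; ring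
        have hv : IsUnit (1 + 6 * a + 9 * u) := by
          rw [unit_iff]
          simp only [map_add, map_mul, map_ofNat, map_one]
          generalize r3 (t27 a) = α, r3 (t27 u) = β
          revert α β; decide
        have e5 : ρD (1 + x) = t27 (1 + 6 * a + 9 * u) := (congrArg up e4).trans (up_unit hv)
        have e6 : ρD x = t27 u := (congrArg up e1).trans (up_eq _ hu)
        rw [e5, map_add t27, map_add t27, map_mul t27, map_mul t27, map_one, map_ofNat,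
          map_ofNat] at h9
        have e7 := fin6 _ _ h9
        rw [unit_iff] at hu
        rw [e6]
        rw [e3] at hu ⊢
        simp only [map_add, map_mul, map_pow, map_ofNat, e7] at hu ⊢
        revert hu
        generalize r3 (t27 b) = β, r3 (t27 c) = γ, r3 (t27 d) = δ
        revert β γ δ; decide
      · rw [e1, val_eq _ hu] at b2; omega
    · have b1 := dvd_of_cast (i := 0) h0
      exact absurd (lev2 hx (by omega)) h1
  · have h0 : wD x = 0 := (congrArg Int.cast h.symm).trans Int.cast_zero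
    refine ⟨fun h1 => absurd h0 h1, fun h1 => absurd h0 h1, fun h1 => ?_, fun h1 => ?_,
      fun h1 => ?_, fun _ h1 n1 _ _ => ?_⟩
    · rw [h0] at h1; exact absurd h1 (by decide)
    · rw [h0] at h1; exact absurd h1 (by decide)
    · rw [h0] at h1; exact absurd h1 (by decide)
    obtain ⟨m, a, b, c, d, u, hu, ⟨e1, e2, e3⟩ | ⟨e1, -⟩⟩ := struct hx
    · rw [e1, val_eq _ hu] at h
      obtain rfl : m = 0 := by omega
      have e4 : N (1 + x : D) = ((1 + 2 * a + u : ℤ_[3]) : ℚ_[3]) := by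
        refine (N_one_add x).trans ?_
        rw [e1, e2]; push_cast; rw [c2]; norm_num
      have e6 : ρD x = t27 u := (congrArg up e1).trans (up_eq _ hu)
      by_cases hv : IsUnit (1 + 2 * a + u)
      · have e5 : ρD (1 + x) = t27 (1 + 2 * a + u) := (congrArg up e4).trans (up_unit hv)
        rw [e5, e6, e3]
        simp only [map_add, map_mul, map_pow, map_ofNat, map_one]
        convert fin7 (t27 b) (t27 c) (t27 d) using 1
        ring
      · have b1 := dvd_of_cast (i := 0) h1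
        have b2 : 1 ≤ (N (1 + x : D)).valuation := by
          obtain ⟨s, hs⟩ := dvd_of_not_unit hv
          have n0 := N_ne hx1
          have e7 : N (1 + x : D) = 3 * (s : ℚ_[3]) := by rw [e4, hs]; rfl
          have s0 : (s : ℚ_[3]) ≠ 0 := right_ne_zero_of_mul (e7 ▸ n0)
          have := PadicInt.valuation_coe_nonneg (x := s)
          rw [e7, Padic.valuation_mul three_ne s0, val_three]
          omega
        have b3 := lev2 (neg_ne_zero.2 hx1) (by
          have : N (-(1 + x) : D) = N (1 + x : D) := N_neg _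
          rw [this]; omega)
        rw [show 1 + -(1 + x) = -x by abel] at b3
        exact absurd ((congrArg up (N_neg x)).symm.trans b3) n1
    · rw [e1, val_eq _ hu] at h; omega
  · have i0 : x⁻¹ ≠ 0 := inv_ne_zero hx
    have e : 1 + x = x * (1 + x⁻¹) := by rw [mul_add, mul_inv_cancel₀ hx, mul_one, add_comm]
    have i1 : 1 + x⁻¹ ≠ 0 := right_ne_zero_of_mul (e ▸ hx1)
    have hv : (N x).valuation + (N (x⁻¹ : D)).valuation = 0 := by
      have e1 : N (x * x⁻¹ : D) = N x * N (x⁻¹ : D) := N_mul _ _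
      rw [← Padic.valuation_mul (N_ne hx) (N_ne i0), ← e1, mul_inv_cancel₀ hx]
      exact (congrArg _ N_one).trans Padic.valuation_one
    have a1 : wD (1 + x) = wD x := by
      rw [e, wD_mul _ _ hx i1, (lev0 i0 (by omega)).1, add_zero]
    refine ⟨fun _ => Or.inr a1, fun h1 h2 => absurd (a1 ▸ h2) h1, fun h1 h2 => ?_, fun h1 h2 => ?_,
      fun h1 h2 => ?_, fun h0 _ _ _ n3 => ?_⟩
    · rw [← a1, h2] at h1; exact absurd h1 (by decide)
    · rw [← a1, h2] at h1; exact absurd h1 (by decide)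
    · rw [← a1, h2] at h1; exact absurd h1 (by decide)
    · have b1 := dvd_of_cast (i := 0) h0
      exact absurd (by rw [e, ρD_mul _ _ hx i1, lev2 i0 (by omega), mul_one]) n3

theorem occ (a b c : ℚ_[3]) (i u m : ℕ) (hu : r3 u ≠ 0) (hm : r3 m ≠ 0)
    (h1 : a ^ 2 + b ^ 2 + 3 * c ^ 2 = 3 ^ i * u) (h2 : 1 + 2 * a + 3 ^ i * u = m) :
    Occ wD ρD i u m := by
  have uu : IsUnit (u : ℤ_[3]) := by rwa [unit_iff, map_natCast]
  have um : IsUnit (m : ℤ_[3]) := by rwa [unit_iff, map_natCast]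
  obtain ⟨x, hx⟩ : ∃ x : ℍ[ℚ_[3], -1, 0, -3], x = ⟨a, b, c, 0⟩ := ⟨_, rfl⟩
  have e1 : N x = 3 ^ (i : ℤ) * ((u : ℤ_[3]) : ℚ_[3]) := by
    rw [zpow_natCast, PadicInt.coe_natCast, ← h1, hx]; simp [N]
  have e2 : N (1 + x) = ((m : ℤ_[3]) : ℚ_[3]) := by
    rw [N_one_add, e1, zpow_natCast, PadicInt.coe_natCast, PadicInt.coe_natCast, ← h2, hx]
  have n0 : N 0 = 0 := by simp [N]
  refine ⟨x, fun h => ?_, fun h => ?_, ?_, ?_, ?_, ?_⟩
  · exact mul_ne_zero (zpow_ne_zero _ three_ne) (coe_ne uu) (e1.symm.trans ((congrArg N h).trans n0))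
  · exact coe_ne um (e2.symm.trans ((congrArg N h).trans n0))
  · exact (congrArg (fun q : ℚ_[3] => (q.valuation : ZMod 7)) e1).trans (by
      simp only [val_eq _ uu, Int.cast_natCast])
  · exact (congrArg up e1).trans (by rw [up_eq _ uu, map_natCast])
  · exact (congrArg (fun q : ℚ_[3] => (q.valuation : ZMod 7)) e2).trans (by
      simp only [val_unit um, Int.cast_zero])
  · exact (congrArg up e2).trans (by rw [up_unit um, map_natCast])

theorem datD : Dat wD ρD where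
  w_mul := wD_mul
  ρ_mul := ρD_mul
  ρ_one := (congrArg up N_one).trans up_one
  ρ_neg := (congrArg up ((N_neg 1).trans N_one)).trans up_one
  all := allowed
  e1 := occ 0 0 1 1 1 4 (by decide) (by decide) (by norm_num) (by norm_num)
  e2 := occ 9 0 0 4 1 100 (by decide) (by decide) (by norm_num) (by norm_num)
  e3 := occ 3 0 0 2 1 16 (by decide) (by decide) (by norm_num) (by norm_num)
  e4 := occ 1 1 0 0 2 5 (by decide) (by decide) (by norm_num) (by norm_num)

end Pool.Agent.Lib.MP_4a7e1d_al.Fin
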