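import Mathlib

/-!
A finite list of constraints on the classes of `x` and `1 + x` that no commutative field satisfies.
-/

set_option autoImplicit false

namespace Pool.Agent.Lib.MP_4a7e1d_al.Fin

/-- Reduction modulo nine. -/
def r9 : ZMod 27 →+* ZMod 9 := ZMod.castHom (by norm_num) (ZMod 9)

/-- Reduction modulo three. -/
def r3 : ZMod 27 →+* ZMod 3 := ZMod.castHom (by norm_num) (ZMod 3)

/-- Constraints on the class `(i, n)` of `x` and the class `(i', m)` of `1 + x`. -/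
structure Allowed (i : ZMod 7) (n : ZMod 27) (i' : ZMod 7) (m : ZMod 27) : Prop where
  rig : i ≠ 0 → i' = 0 ∨ i' = i
  l1 : i ≠ 0 → i' = 0 → r3 m = 1
  l3 : 3 ≤ i.val → i' = 0 → r9 m = 1
  l5 : 5 ≤ i.val → i' = 0 → m = 1
  t2 : i = 2 → i' = 0 → r9 m = 1 → m ≠ 1 → r3 n = 1
  t3 : i = 0 → i' = 0 → n ≠ 1 → m ≠ 1 → n ≠ m → (m - 1 - n) ^ 2 - 4 * n ≠ 9

/-- The pair of classes `(i, n)`, `(0, m)` occurs. -/
def Occ {F : Type*} [DivisionRing F] (w : F → ZMod 7) (ρ : F → ZMod 27) (i : ZMod 7)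
    (n m : ZMod 27) : Prop :=
  ∃ x : F, x ≠ 0 ∧ 1 + x ≠ 0 ∧ w x = i ∧ ρ x = n ∧ w (1 + x) = 0 ∧ ρ (1 + x) = m

/-- All the data. -/
structure Dat {F : Type*} [DivisionRing F] (w : F → ZMod 7) (ρ : F → ZMod 27) : Prop where
  w_mul : ∀ x y, x ≠ 0 → y ≠ 0 → w (x * y) = w x + w y
  ρ_mul : ∀ x y, x ≠ 0 → y ≠ 0 → ρ (x * y) = ρ x * ρ y
  ρ_one : ρ 1 = 1
  ρ_neg : ρ (-1) = 1
  all : ∀ x, x ≠ 0 → 1 + x ≠ 0 → Allowed (w x) (ρ x) (w (1 + x)) (ρ (1 + x))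
  e1 : Occ w ρ 1 1 4
  e2 : Occ w ρ 4 1 19
  e3 : Occ w ρ 2 1 16
  e4 : Occ w ρ 0 2 5

variable {K : Type*} [Field K] {w : K → ZMod 7} {ρ : K → ZMod 27}

theorem two_ne {i : ZMod 7} (h : i ≠ 0) : i + i ≠ 0 := by revert i; decide

theorem Dat.w_one (h : Dat w ρ) : w 1 = 0 := by
  have := h.w_mul 1 1 one_ne_zero one_ne_zero
  rw [mul_one] at this
  exact left_eq_add.1 this

theorem Dat.w_neg (h : Dat w ρ) {x : K} (hx : x ≠ 0) : w (-x) = w x := by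
  have h1 : w (-1) = 0 := by
    have := h.w_mul (-1) (-1) (by simp) (by simp)
    rw [neg_mul_neg, mul_one, h.w_one] at this
    by_contra h2
    exact two_ne h2 this.symm
  rw [← neg_one_mul, h.w_mul _ _ (by simp) hx, h1, zero_add]

theorem Dat.w_inv (h : Dat w ρ) {x : K} (hx : x ≠ 0) : w x⁻¹ = -w x := by
  have := h.w_mul x x⁻¹ hx (inv_ne_zero hx)
  rw [mul_inv_cancel₀ hx, h.w_one] at this
  exact eq_neg_of_add_eq_zero_right this.symm

theorem Dat.w_div (h : Dat w ρ) {x y : K} (hx : x ≠ 0) (hy : y ≠ 0) : w (x / y) = w x - w y := by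
  rw [div_eq_mul_inv, h.w_mul _ _ hx (inv_ne_zero hy), h.w_inv hy, sub_eq_add_neg]

theorem Dat.ρ_neg' (h : Dat w ρ) {x : K} (hx : x ≠ 0) : ρ (-x) = ρ x := by
  rw [← neg_one_mul, h.ρ_mul _ _ (by simp) hx, h.ρ_neg, one_mul]

theorem Dat.rig (h : Dat w ρ) {p q : K} (hp : p ≠ 0) (hq : q ≠ 0) (hw : w p ≠ w q) :
    p + q ≠ 0 ∧ (w (p + q) = w p ∨ w (p + q) = w q) := by
  have h0 : p + q ≠ 0 := fun h1 => hw (by rw [eq_neg_of_add_eq_zero_left h1, h.w_neg hq])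
  have e : p + q = p * (1 + q / p) := by field_simp
  have h1 : 1 + q / p ≠ 0 := fun h2 => h0 (by rw [e, h2, mul_zero])
  refine ⟨h0, ?_⟩
  have h2 := (h.all _ (div_ne_zero hq hp) h1).rig (by
    rw [h.w_div hq hp]; exact sub_ne_zero.2 hw.symm)
  rw [e, h.w_mul _ _ hp h1]
  rcases h2 with h2 | h2
  · left; rw [h2, add_zero]
  · right; rw [h2, h.w_div hq hp]; ring

/-- `1 + z` looks like a unit. -/
def P (w : K → ZMod 7) (z : K) : Prop := 1 + z ≠ 0 ∧ w (1 + z) = 0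

/-- Visibly small elements. -/
def Sm (w : K → ZMod 7) (x : K) : Prop := x ≠ 0 ∧ w x ≠ 0 ∧ P w x

theorem Dat.sm_or (h : Dat w ρ) {x : K} (hx : x ≠ 0) (hw : w x ≠ 0) : Sm w x ∨ Sm w x⁻¹ := by
  obtain ⟨h0, h1 | h1⟩ := h.rig one_ne_zero hx (by rw [h.w_one]; exact hw.symm)
  · exact Or.inl ⟨hx, hw, h0, by rw [h1, h.w_one]⟩
  · have e : 1 + x⁻¹ = (1 + x) / x := by field_simp; ring
    refine Or.inr ⟨inv_ne_zero hx, by rw [h.w_inv hx]; exact neg_ne_zero.2 hw, ?_, ?_⟩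
    · rw [e]; exact div_ne_zero h0 hx
    · rw [e, h.w_div h0 hx, h1, sub_self]

theorem Dat.sm_neg (h : Dat w ρ) {x : K} (hx : Sm w x) : Sm w (-x) := by
  obtain ⟨h0, h1, h2, h3⟩ := hx
  have n0 : -x ≠ 0 := neg_ne_zero.2 h0
  obtain ⟨a0, a1 | a1⟩ := h.rig one_ne_zero n0 (by rw [h.w_one, h.w_neg h0]; exact h1.symm)
  · exact ⟨n0, by rwa [h.w_neg h0], a0, by rw [a1, h.w_one]⟩
  · exfalso
    have e : w (x * -x) = w x + w x := by rw [h.w_mul _ _ h0 n0, h.w_neg h0]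
    obtain ⟨-, b1⟩ := h.rig one_ne_zero (mul_ne_zero h0 n0) (by
      rw [h.w_one, e]; exact (two_ne h1).symm)
    rw [show 1 + x * -x = (1 + x) * (1 + -x) by ring, h.w_mul _ _ h2 a0, h3, a1, h.w_neg h0,
      zero_add, h.w_one, e] at b1
    rcases b1 with b1 | b1
    · exact h1 b1
    · exact h1 (left_eq_add.1 b1)

theorem Dat.p_mul (h : Dat w ρ) {x y : K} (hx : Sm w x) (hy : Sm w y) : P w (x * y) := by
  have key : ∀ x y : K, Sm w x → Sm w y →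
      1 + x * y ≠ 0 ∧ (w (1 + x * y) = 0 ∨ w (1 + x * y) = w y) := fun x y hx hy => by
    obtain ⟨-, -, a2, a3⟩ := h.sm_neg hx
    obtain ⟨b0, b1, b2, b3⟩ := hy
    have e : w (-y * (1 + -x)) = w y := by
      rw [h.w_mul _ _ (neg_ne_zero.2 b0) a2, a3, h.w_neg b0, add_zero]
    have := h.rig b2 (mul_ne_zero (neg_ne_zero.2 b0) a2) (by rw [b3, e]; exact b1.symm)
    rwa [b3, e, show 1 + y + -y * (1 + -x) = 1 + x * y by ring] at this
  obtain ⟨a0, a1⟩ := key x y hx hy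
  obtain ⟨-, a2⟩ := key y x hy hx
  rw [mul_comm y] at a2
  refine ⟨a0, by_contra fun hn => ?_⟩
  have b1 := a1.resolve_left hn
  have b2 := a2.resolve_left hn
  have e : w (x * y) = w x + w x := by rw [h.w_mul _ _ hx.1 hy.1, ← b1, b2]
  obtain ⟨-, c⟩ := h.rig one_ne_zero (mul_ne_zero hx.1 hy.1) (by
    rw [h.w_one, e]; exact (two_ne hx.2.1).symm)
  rw [h.w_one, e, b2] at c
  rcases c with c | c
  · exact hx.2.1 c
  · exact hx.2.1 (left_eq_add.1 c)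

/-- The valuation ring. -/
def O (w : K → ZMod 7) (a : K) : Prop := ∀ y, Sm w y → P w (a * y)

theorem Dat.o_sm (h : Dat w ρ) {x : K} (hx : Sm w x) : O w x := fun _ hy => h.p_mul hx hy

theorem Dat.not_o_inv (h : Dat w ρ) {x : K} (hx : Sm w x) : ¬ O w x⁻¹ := fun h1 =>
  (h1 _ (h.sm_neg hx)).1 (by rw [mul_neg, inv_mul_cancel₀ hx.1, add_neg_cancel])

theorem Dat.sm_of_o (h : Dat w ρ) {a : K} (ha : O w a) (h0 : a ≠ 0) (hw : w a ≠ 0) : Sm w a :=
  (h.sm_or h0 hw).resolve_right fun h1 => h.not_o_inv h1 (by rwa [inv_inv])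

theorem Dat.o_zero (h : Dat w ρ) : O w 0 := fun _ _ => by
  rw [zero_mul, P, add_zero]; exact ⟨one_ne_zero, h.w_one⟩

theorem Dat.o_mul (h : Dat w ρ) {a b : K} (ha : O w a) (hb : O w b) : O w (a * b) := by
  by_cases a0 : a = 0
  · rw [a0, zero_mul]; exact h.o_zero
  by_cases b0 : b = 0
  · rw [b0, mul_zero]; exact h.o_zero
  intro y hy
  by_cases h1 : w (b * y) = 0
  · by_cases h2 : w (a * y) = 0
    · rw [h.w_mul _ _ b0 hy.1] at h1
      rw [h.w_mul _ _ a0 hy.1] at h2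
      have e1 : w b = -w y := eq_neg_of_add_eq_zero_left h1
      have e2 : w a = -w y := eq_neg_of_add_eq_zero_left h2
      have n : -w y ≠ 0 := neg_ne_zero.2 hy.2.1
      refine h.p_mul ⟨mul_ne_zero a0 b0, ?_,
        h.p_mul (h.sm_of_o ha a0 (e2 ▸ n)) (h.sm_of_o hb b0 (e1 ▸ n))⟩ hy
      rw [h.w_mul _ _ a0 b0, e1, e2]
      exact two_ne n
    · rw [mul_comm a, mul_assoc]
      exact hb _ ⟨mul_ne_zero a0 hy.1, h2, ha y hy⟩
  · rw [mul_assoc]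
    exact ha _ ⟨mul_ne_zero b0 hy.1, h1, hb y hy⟩

theorem Dat.o_neg_one (h : Dat w ρ) : O w (-1) := fun y hy => by
  rw [neg_one_mul]; exact (h.sm_neg hy).2.2

theorem Dat.o_one_add (h : Dat w ρ) {a : K} (ha : O w a) : O w (1 + a) := fun y hy => by
  obtain ⟨b0, b1, b2, b3⟩ := hy
  have s : Sm w (-(y / (1 + y))) := by
    have e : 1 + -(y / (1 + y)) = (1 + y)⁻¹ := by field_simp; ring
    refine ⟨neg_ne_zero.2 (div_ne_zero b0 b2), ?_, ?_, ?_⟩
    · rwa [h.w_neg (div_ne_zero b0 b2), h.w_div b0 b2, b3, sub_zero]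
    · rw [e]; exact inv_ne_zero b2
    · rw [e, h.w_inv b2, b3, neg_zero]
  have s' := h.sm_neg s
  rw [neg_neg] at s'
  obtain ⟨c0, c1⟩ := ha _ s'
  have e : 1 + (1 + a) * y = (1 + y) * (1 + a * (y / (1 + y))) := by field_simp; ring
  rw [P, e]
  exact ⟨mul_ne_zero b2 c0, by rw [h.w_mul _ _ b2 c0, b3, c1, add_zero]⟩

theorem Dat.o_total (h : Dat w ρ) (a : K) : O w a ∨ O w a⁻¹ := by
  by_cases a0 : a = 0
  · left; rw [a0]; exact h.o_zero
  by_cases hw : w a = 0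
  · by_contra hn
    rw [not_or, O, O] at hn
    push Not at hn
    obtain ⟨⟨y, hy, h1⟩, y', hy', h2⟩ := hn
    have s1 := (h.sm_or (mul_ne_zero a0 hy.1) (by
      rw [h.w_mul _ _ a0 hy.1, hw, zero_add]; exact hy.2.1)).resolve_left fun s => h1 s.2.2
    have s2 := (h.sm_or (mul_ne_zero (inv_ne_zero a0) hy'.1) (by
      rw [h.w_mul _ _ (inv_ne_zero a0) hy'.1, h.w_inv a0, hw, neg_zero, zero_add]
      exact hy'.2.1)).resolve_left fun s => h2 s.2.2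
    refine h.not_o_inv hy' ?_
    have e : y'⁻¹ = (a * y)⁻¹ * (a⁻¹ * y')⁻¹ * y := by
      have := hy.1
      have := hy'.1
      field_simp
    rw [e]
    exact h.o_mul (h.o_mul (h.o_sm s1) (h.o_sm s2)) (h.o_sm hy)
  · exact (h.sm_or a0 hw).imp h.o_sm h.o_sm

/-- The valuation ring as a valuation subring. -/
def Dat.ring (h : Dat w ρ) : ValuationSubring K where
  carrier := {a | O w a}
  mul_mem' := h.o_mul
  one_mem' := fun y hy => by rw [one_mul]; exact hy.2.2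
  zero_mem' := h.o_zero
  neg_mem' := fun {a} ha => by
    change O w (-a)
    rw [← neg_one_mul]; exact h.o_mul h.o_neg_one ha
  add_mem' := fun {a b} ha hb => by
    change O w (a + b)
    by_cases a0 : a = 0
    · rwa [a0, zero_add]
    by_cases b0 : b = 0
    · rwa [b0, add_zero]
    rcases h.o_total (a / b) with h1 | h1
    · rw [show a + b = b * (1 + a / b) by field_simp; ring]
      exact h.o_mul hb (h.o_one_add h1)
    · rw [show a + b = a * (1 + (a / b)⁻¹) by field_simp]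
      exact h.o_mul ha (h.o_one_add h1)
  mem_or_inv_mem' := h.o_total

theorem Dat.mem_ring (h : Dat w ρ) {a : K} : a ∈ h.ring ↔ O w a := Iff.rfl

section Pi

variable {π : K}

theorem Dat.sm_div (h : Dat w ρ) (hπ : Sm w π) (h1 : w π = 1) (h4 : ρ (1 + π) = 4) {y : K}
    (hy : Sm w y) (hw : w y ≠ 1) : Sm w (y / π) := by
  have key : ∀ y y' : K, Sm w y → Sm w y' → π = y * y' → ¬ 3 ≤ (w y).val := by
    intro y y' hy hy' e h3
    obtain ⟨b0, -, b2, b3⟩ := hy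
    obtain ⟨-, -, c2, c3⟩ := h.sm_neg hy'
    have n0 : -y * (1 + -y') ≠ 0 := mul_ne_zero (neg_ne_zero.2 b0) c2
    have e1 : w (-y * (1 + -y') / (1 + y)) = w y := by
      rw [h.w_div n0 b2, h.w_mul _ _ (neg_ne_zero.2 b0) c2, c3, b3, h.w_neg b0]; ring
    have e2 : 1 + -y * (1 + -y') / (1 + y) = (1 + π) / (1 + y) := by
      rw [e]; field_simp; ring
    have n1 : (1 + π) / (1 + y) ≠ 0 := div_ne_zero hπ.2.2.1 b2
    have a1 := (h.all y b0 b2).l3 h3 b3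
    have a2 := (h.all _ (div_ne_zero n0 b2) (e2 ▸ n1)).l3 (e1 ▸ h3) (by
      rw [e2, h.w_div hπ.2.2.1 b2, b3, hπ.2.2.2, sub_zero])
    rw [e2] at a2
    have a3 : ρ (1 + π) = ρ (1 + y) * ρ ((1 + π) / (1 + y)) := by
      rw [← h.ρ_mul _ _ b2 n1, mul_div_cancel₀ _ b2]
    have a4 := congrArg r9 a3
    rw [map_mul, a1, a2, h4] at a4
    revert a4; decide
  have e : w (y / π) = w y - 1 := by rw [h.w_div hy.1 hπ.1, h1]
  refine (h.sm_or (div_ne_zero hy.1 hπ.1) (e ▸ sub_ne_zero.2 hw)).resolve_right fun s => ?_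
  have e' : π = y * (y / π)⁻¹ := by
    have := hy.1
    have := hπ.1
    field_simp
  have k1 := key _ _ hy s e'
  have k2 := key _ _ s hy (by rw [mul_comm]; exact e')
  rw [h.w_inv (div_ne_zero hy.1 hπ.1), e] at k2
  have k3 := hy.2.1
  revert k1 k2 k3 hw
  generalize w y = j
  revert j; decide

theorem Dat.o_div (h : Dat w ρ) (hπ : Sm w π) (h1 : w π = 1) (h4 : ρ (1 + π) = 4) {y : K}
    (hy : Sm w y) : O w (y / π) := by
  by_cases hw : w y = 1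
  · intro y' hy'
    by_cases hw' : w y' = 1
    · have e : w (y * y') = 2 := by rw [h.w_mul _ _ hy.1 hy'.1, hw, hw']; rfl
      rw [div_mul_eq_mul_div]
      exact (h.sm_div hπ h1 h4 ⟨mul_ne_zero hy.1 hy'.1, by rw [e]; decide, h.p_mul hy hy'⟩
        (by rw [e]; decide)).2.2
    · rw [div_mul_eq_mul_div, mul_div_assoc]
      exact h.p_mul hy (h.sm_div hπ h1 h4 hy' hw')
  · exact h.o_sm (h.sm_div hπ h1 h4 hy hw)

theorem Dat.o_div' (h : Dat w ρ) (hπ : Sm w π) (h1 : w π = 1) (h4 : ρ (1 + π) = 4) {a : K}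
    (ha : O w a) (hn : ¬ O w a⁻¹) : O w (a / π) := by
  have a0 : a ≠ 0 := by
    rintro rfl
    exact hn (by rw [inv_zero]; exact h.o_zero)
  rw [O] at hn
  push Not at hn
  obtain ⟨y, hy, h2⟩ := hn
  by_cases hw : w (a⁻¹ * y) = 0
  · rw [h.w_mul _ _ (inv_ne_zero a0) hy.1, h.w_inv a0, neg_add_eq_zero] at hw
    exact h.o_div hπ h1 h4 (h.sm_of_o ha a0 (hw ▸ hy.2.1))
  · have s := (h.sm_or (mul_ne_zero (inv_ne_zero a0) hy.1) hw).resolve_left fun s => h2 s.2.2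
    have e : a / π = (a⁻¹ * y)⁻¹ * (y / π) := by
      have := hy.1
      field_simp
    rw [e]
    exact h.o_mul (h.o_sm s) (h.o_div hπ h1 h4 hy)

end Pi

/-- What is used about the valuation ring `A` with uniformizer `π`. -/
structure Val (w : K → ZMod 7) (ρ : K → ZMod 27) (A : ValuationSubring K) (π : K) : Prop where
  dat : Dat w ρ
  ne : π ≠ 0
  mem : π ∈ A
  inv : π⁻¹ ∉ A
  wπ : w π = 1
  ρπ : ρ π = 1
  div : ∀ a ∈ A, a⁻¹ ∉ A → a / π ∈ A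
  unit : ∀ a ∈ A, a ≠ 0 → a⁻¹ ∈ A → w a = 0
  small : ∀ a ∈ A, a ≠ 0 → w a ≠ 0 → w (1 + a) = 0
  big : ∀ a, a ≠ 0 → 1 + a ≠ 0 → w a ≠ 0 → w (1 + a) = 0 → a ∈ A

theorem Dat.exists_val (h : Dat w ρ) : ∃ A π, Val w ρ A π := by
  obtain ⟨π, a0, a1, a2, a3, a4, a5⟩ := h.e1
  have hπ : Sm w π := ⟨a0, by rw [a2]; decide, a1, a4⟩
  exact ⟨h.ring, π, h, a0, h.o_sm hπ, h.not_o_inv hπ, a2, a3,
    fun a ha hn => h.o_div' hπ a2 a5 ha hn,
    fun a ha h0 hi => by_contra fun hw => h.not_o_inv (h.sm_of_o ha h0 hw) hi,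
    fun a ha h0 hw => (h.sm_of_o ha h0 hw).2.2.2, fun a b0 b1 b2 b3 => h.o_sm ⟨b0, b2, b1, b3⟩⟩

/-- Units of the valuation ring. -/
def U (A : ValuationSubring K) (a : K) : Prop := a ≠ 0 ∧ a ∈ A ∧ a⁻¹ ∈ A

variable {A : ValuationSubring K} {π : K}

theorem U.mul {a b : K} (ha : U A a) (hb : U A b) : U A (a * b) :=
  ⟨mul_ne_zero ha.1 hb.1, mul_mem ha.2.1 hb.2.1, by rw [mul_inv]; exact mul_mem ha.2.2 hb.2.2⟩

theorem U.inv {a : K} (ha : U A a) : U A a⁻¹ :=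
  ⟨inv_ne_zero ha.1, ha.2.2, by rw [inv_inv]; exact ha.2.1⟩

theorem U.neg {a : K} (ha : U A a) : U A (-a) :=
  ⟨neg_ne_zero.2 ha.1, neg_mem ha.2.1, by rw [inv_neg]; exact neg_mem ha.2.2⟩

theorem U.one : U A 1 := ⟨one_ne_zero, one_mem _, by rw [inv_one]; exact one_mem _⟩

theorem U.pow {a : K} (ha : U A a) : ∀ n : ℕ, U A (a ^ n)
  | 0 => by rw [pow_zero]; exact U.one
  | n + 1 => by rw [pow_succ]; exact (ha.pow n).mul ha

theorem U.div_mem {a b : K} (hb : U A b) (ha : a ∈ A) : a / b ∈ A := by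
  rw [div_eq_mul_inv]; exact mul_mem ha hb.2.2

namespace Val

variable (h : Val w ρ A π)
include h

theorem dich {a : K} (ha : a ∈ A) : U A a ∨ ∃ b ∈ A, a = π * b := by
  by_cases a0 : a = 0
  · exact Or.inr ⟨0, zero_mem _, by rw [a0, mul_zero]⟩
  by_cases hi : a⁻¹ ∈ A
  · exact Or.inl ⟨a0, ha, hi⟩
  · exact Or.inr ⟨_, h.div a ha hi, (mul_div_cancel₀ _ h.ne).symm⟩

theorem not_u {b : K} (hb : b ∈ A) : ¬ U A (π * b) := fun hu => h.inv (by
  have b0 : b ≠ 0 := right_ne_zero_of_mul hu.1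
  have : π⁻¹ = (π * b)⁻¹ * b := by field_simp
  rw [this]; exact mul_mem hu.2.2 hb)

theorem u_add {a b : K} (ha : U A a) (hb : b ∈ A) : U A (a + π * b) := by
  refine (h.dich (add_mem ha.2.1 (mul_mem h.mem hb))).resolve_right ?_
  rintro ⟨c, hc, e⟩
  refine h.not_u (sub_mem hc hb) ?_
  rwa [mul_sub, ← e, add_sub_cancel_right]

theorem u_pow {b : K} (hb : b ∈ A) (t : ℕ) : U A (1 + π ^ (t + 1) * b) := by
  rw [pow_succ', mul_assoc]; exact h.u_add U.one (mul_mem (pow_mem h.mem t) hb)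

theorem w_u {a : K} (ha : U A a) : w a = 0 := h.unit a ha.2.1 ha.1 ha.2.2

theorem w_pow (t : ℕ) : w (π ^ t) = t := by
  induction t with
  | zero => rw [pow_zero, h.dat.w_one, Nat.cast_zero]
  | succ t ih => rw [pow_succ, h.dat.w_mul _ _ (pow_ne_zero _ h.ne) h.ne, ih, h.wπ, Nat.cast_succ]

theorem w_pow_u (t : ℕ) {a : K} (ha : U A a) : w (π ^ t * a) = t := by
  rw [h.dat.w_mul _ _ (pow_ne_zero _ h.ne) ha.1, h.w_pow, h.w_u ha, add_zero]

theorem lev {S : Type} [CommRing S] (r : ZMod 27 →+* S) (t : ℕ)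
    (hr : ∀ x, x ≠ 0 → 1 + x ≠ 0 → w x = (t + 1 : ℕ) → w (1 + x) = 0 → r (ρ (1 + x)) = 1)
    {a : K} (ha : a ∈ A) : r (ρ (1 + π ^ (t + 1) * a)) = 1 := by
  have key : ∀ a, U A a → r (ρ (1 + π ^ (t + 1) * a)) = 1 := fun a ha =>
    hr _ (mul_ne_zero (pow_ne_zero _ h.ne) ha.1) (h.u_pow ha.2.1 t).1 (h.w_pow_u _ ha)
      (h.w_u (h.u_pow ha.2.1 t))
  rcases h.dich ha with hu | ⟨b, hb, rfl⟩
  · exact key a hu
  · have u1 := h.u_pow (one_mem A) t
    have u2 := (h.u_add U.one.neg hb).mul u1.inv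
    have e : 1 + π ^ (t + 1) * (π * b) = (1 + π ^ (t + 1) * 1) *
        (1 + π ^ (t + 1) * ((-1 + π * b) * (1 + π ^ (t + 1) * 1)⁻¹)) := by
      have := mul_inv_cancel₀ u1.1
      linear_combination (-(π ^ (t + 1) * (-1 + π * b))) * this
    rw [e, h.dat.ρ_mul _ _ u1.1 (h.u_pow u2.2.1 t).1, map_mul, key _ U.one, key _ u2, one_mul]

theorem lev1 {a : K} (ha : a ∈ A) : r3 (ρ (1 + π * a)) = 1 := by
  have := h.lev r3 0 (fun x a0 a1 a2 a3 => (h.dat.all x a0 a1).l1 (by rw [a2]; decide) a3) ha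
  rwa [zero_add, pow_one] at this

theorem lev3 {a : K} (ha : a ∈ A) : r9 (ρ (1 + π ^ 3 * a)) = 1 :=
  h.lev r9 2 (fun x a0 a1 a2 a3 => (h.dat.all x a0 a1).l3 (by rw [a2]; decide) a3) ha

theorem lev5 {a : K} (ha : a ∈ A) : ρ (1 + π ^ 5 * a) = 1 :=
  h.lev (RingHom.id _) 4 (fun x a0 a1 a2 a3 => (h.dat.all x a0 a1).l5 (by rw [a2]; decide) a3) ha

theorem exists_pow (i : ℕ) (hi : i < 7) : ∀ a ∈ A, a ≠ 0 → w a = i → ∃ b ∈ A, a = π ^ i * b := by
  induction i with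
  | zero => exact fun a ha _ _ => ⟨a, ha, by rw [pow_zero, one_mul]⟩
  | succ i ih =>
    intro a ha a0 hw
    have n : ((i + 1 : ℕ) : ZMod 7) ≠ 0 := by
      rw [Ne, ZMod.natCast_eq_zero_iff]
      exact Nat.not_dvd_of_pos_of_lt i.succ_pos hi
    obtain ⟨b, hb, rfl⟩ := (h.dich ha).resolve_left fun hu => n (hw ▸ h.w_u hu)
    have b0 := right_ne_zero_of_mul a0
    rw [h.dat.w_mul _ _ h.ne b0, h.wπ, Nat.cast_succ, add_comm, add_left_inj] at hw
    obtain ⟨c, hc, rfl⟩ := ih (by omega) b hb b0 hw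
    exact ⟨c, hc, by ring⟩

theorem sign_add {a b : K} (ha : U A a) (hb : b ∈ A) : r3 (ρ (a + π * b)) = r3 (ρ a) := by
  have e : a + π * b = a * (1 + π * (b / a)) := by
    have := ha.1
    field_simp
  rw [e, h.dat.ρ_mul _ _ ha.1 (h.u_add U.one (ha.div_mem hb)).1, map_mul,
    h.lev1 (ha.div_mem hb), mul_one]

theorem exists_z : ∃ z, U A z ∧ r3 (ρ z) = 2 := by
  obtain ⟨z, a0, a1, a2, a3, -, a5⟩ := h.dat.e4
  refine ⟨z, ?_, by rw [a3]; decide⟩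
  rcases A.mem_or_inv_mem z with hz | hz
  · refine (h.dich hz).resolve_right ?_
    rintro ⟨b, hb, rfl⟩
    have := h.lev1 hb
    rw [a5] at this
    revert this; decide
  · refine inv_inv z ▸ U.inv ((h.dich hz).resolve_right ?_)
    rintro ⟨b, hb, e⟩
    have b0 : b ≠ 0 := right_ne_zero_of_mul (e ▸ inv_ne_zero a0)
    have hw := congrArg w e
    rw [h.dat.w_inv a0, a2, h.dat.w_mul _ _ h.ne b0, h.wπ] at hw
    obtain ⟨c, hc, rfl⟩ := h.exists_pow 6 (by norm_num) b hb b0 (by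
      revert hw; generalize w b = j; revert j; decide)
    have m : π ^ 2 * c ∈ A := mul_mem (pow_mem h.mem 2) hc
    have e2 : 1 + z = z * (1 + π ^ 5 * (π ^ 2 * c)) := by
      rw [show π ^ 5 * (π ^ 2 * c) = π * (π ^ 6 * c) by ring, ← e]; field_simp; ring
    rw [e2, h.dat.ρ_mul _ _ a0 (h.u_pow m 4).1, h.lev5 m, a3] at a5
    revert a5; decide

theorem exists_b0 : ∃ b ∈ A, ρ (1 + π ^ 4 * b) = 19 := by
  obtain ⟨y, a0, a1, a2, -, a4, a5⟩ := h.dat.e2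
  obtain ⟨b, hb, rfl⟩ := h.exists_pow 4 (by norm_num) y
    (h.big y a0 a1 (by rw [a2]; decide) a4) a0 a2
  exact ⟨b, hb, a5⟩

theorem eta {b : K} (hb : b ∈ A) (h19 : ρ (1 + π ^ 4 * b) = 19) (k : ℕ) :
    ∀ a ∈ A, ρ (1 + k * (π ^ 4 * b) + π ^ 5 * a) = 19 ^ k := by
  induction k with
  | zero => intro a ha; rw [Nat.cast_zero, zero_mul, add_zero, h.lev5 ha, pow_zero]
  | succ k ih =>
    intro a ha
    have u1 := h.u_pow hb 3
    have m : (a - k * π ^ 3 * b ^ 2) / (1 + π ^ 4 * b) ∈ A :=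
      u1.div_mem (sub_mem ha (mul_mem (mul_mem (natCast_mem A k) (pow_mem h.mem 3)) (pow_mem hb 2)))
    have e : 1 + (k + 1 : ℕ) * (π ^ 4 * b) + π ^ 5 * a = (1 + π ^ 4 * b) *
        (1 + k * (π ^ 4 * b) + π ^ 5 * ((a - k * π ^ 3 * b ^ 2) / (1 + π ^ 4 * b))) := by
      have := u1.1
      push_cast; field_simp; ring
    have u2 : U A (1 + π ^ (3 + 1) * (k * b + π * ((a - k * π ^ 3 * b ^ 2) / (1 + π ^ 4 * b)))) :=
      h.u_pow (add_mem (mul_mem (natCast_mem A k) hb) (mul_mem h.mem m)) 3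
    rw [e, h.dat.ρ_mul _ _ u1.1 (by convert u2.1 using 1; ring), ih _ m, h19, pow_succ']

theorem eta' {b : K} (hb : b ∈ A) (h19 : ρ (1 + π ^ 4 * b) = 19) (k : ℕ) {c a : K} (hc : c ∈ A)
    (ha : a ∈ A) :
    ρ (1 + π * c + k * (π ^ 4 * b) + π ^ 5 * a) = ρ (1 + π * c) * 19 ^ k := by
  have u1 := h.u_add U.one hc
  have m : (a - k * b * c) / (1 + π * c) ∈ A :=
    u1.div_mem (sub_mem ha (mul_mem (mul_mem (natCast_mem A k) hb) hc))
  have e : 1 + π * c + k * (π ^ 4 * b) + π ^ 5 * a = (1 + π * c) *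
      (1 + k * (π ^ 4 * b) + π ^ 5 * ((a - k * b * c) / (1 + π * c))) := by
    have := u1.1
    field_simp; ring
  have u2 : U A (1 + π ^ (3 + 1) * (k * b + π * ((a - k * b * c) / (1 + π * c)))) :=
    h.u_pow (add_mem (mul_mem (natCast_mem A k) hb) (mul_mem h.mem m)) 3
  rw [e, h.dat.ρ_mul _ _ u1.1 (by convert u2.1 using 1; ring), h.eta hb h19 k _ m]

omit h in
/-- The character of the second graded piece. -/
def g (ρ : K → ZMod 27) (π a : K) : ZMod 9 := r9 (ρ (1 + π ^ 2 * a))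

theorem g_add {a b : K} (ha : a ∈ A) (hb : b ∈ A) : g ρ π (a + b) = g ρ π a * g ρ π b := by
  have u1 := h.u_pow (add_mem ha hb) 1
  have m : π * a * b / (1 + π ^ 2 * (a + b)) ∈ A := u1.div_mem (mul_mem (mul_mem h.mem ha) hb)
  have e : (1 + π ^ 2 * a) * (1 + π ^ 2 * b) =
      (1 + π ^ 2 * (a + b)) * (1 + π ^ 3 * (π * a * b / (1 + π ^ 2 * (a + b)))) := by
    have := u1.1
    field_simp; ring
  unfold g
  rw [← map_mul, ← h.dat.ρ_mul _ _ (h.u_pow ha 1).1 (h.u_pow hb 1).1, e,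
    h.dat.ρ_mul _ _ u1.1 (h.u_pow m 2).1, map_mul, h.lev3 m, mul_one]

theorem g_pi {b : K} (hb : b ∈ A) : g ρ π (π * b) = 1 := by
  unfold g
  rw [show π ^ 2 * (π * b) = π ^ 3 * b by ring, h.lev3 hb]

theorem g_val {a : K} (ha : a ∈ A) : g ρ π a = 1 ∨ g ρ π a = 4 ∨ g ρ π a = 7 := by
  have := h.lev1 (mul_mem h.mem ha)
  unfold g
  rw [pow_two, mul_assoc]
  revert this
  generalize ρ (1 + π * (π * a)) = m
  revert m; decide

theorem g_neg {a : K} (ha : a ∈ A) : g ρ π a * g ρ π (-a) = 1 := by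
  rw [← h.g_add ha (neg_mem ha), add_neg_cancel, ← h.g_pi (zero_mem A), mul_zero]

theorem g_sub {a b : K} (ha : a ∈ A) (hb : b ∈ A) (e : g ρ π a = g ρ π b) :
    g ρ π (a - b) = 1 := by
  rw [sub_eq_add_neg, h.g_add ha (neg_mem hb), e, h.g_neg hb]

theorem exists_g : ∃ a ∈ A, g ρ π a ≠ 1 := by
  obtain ⟨y, a0, a1, a2, -, a4, a5⟩ := h.dat.e3
  obtain ⟨b, hb, rfl⟩ := h.exists_pow 2 (by norm_num) y
    (h.big y a0 a1 (by rw [a2]; decide) a4) a0 a2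
  exact ⟨b, hb, by unfold g; rw [a5]; decide⟩

theorem three : ∃ c ∈ A, (3 : K) = π * c := by
  refine (h.dich (by exact_mod_cast natCast_mem A 3)).resolve_left fun hu => ?_
  obtain ⟨a, ha, h1⟩ := h.exists_g
  have m := hu.div_mem ha
  have e : a = a / 3 + a / 3 + a / 3 := by
    have := hu.1
    field_simp; ring
  rw [e, h.g_add (add_mem m m) m, h.g_add m m] at h1
  rcases h.g_val m with h2 | h2 | h2 <;> rw [h2] at h1 <;> revert h1 <;> decide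

theorem u_two : U A 2 := by
  obtain ⟨c, hc, e⟩ := h.three
  have := h.u_add U.one.neg hc
  rwa [← e, show (-1 + 3 : K) = 2 by norm_num] at this

theorem sign_of_g {a : K} (ha : U A a) (h1 : g ρ π a = 1) : r3 (ρ a) = 1 := by
  have key : ∀ a, U A a → g ρ π a = 1 → ρ (1 + π ^ 2 * a) ≠ 1 → r3 (ρ a) = 1 := by
    intro a ha h1 h2
    have := (h.dat.all _ (mul_ne_zero (pow_ne_zero 2 h.ne) ha.1) (h.u_pow ha.2.1 1).1).t2
      (h.w_pow_u 2 ha) (h.w_u (h.u_pow ha.2.1 1)) h1 h2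
    rwa [h.dat.ρ_mul _ _ (pow_ne_zero 2 h.ne) ha.1, pow_two, h.dat.ρ_mul _ _ h.ne h.ne, h.ρπ,
      one_mul, one_mul] at this
  by_cases h2 : ρ (1 + π ^ 2 * a) = 1
  · obtain ⟨b, hb, h19⟩ := h.exists_b0
    have m : π * b * (1 + π ^ 2 * a) ∈ A := mul_mem (mul_mem h.mem hb) (h.u_pow ha.2.1 1).2.1
    rw [← h.sign_add ha m]
    refine key _ (h.u_add ha m) (by rw [h.g_add ha.2.1 (mul_mem h.mem m), h1, h.g_pi m, one_mul]) ?_
    rw [show 1 + π ^ 2 * (a + π * (π * b * (1 + π ^ 2 * a))) =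
      (1 + π ^ 2 * a) * (1 + π ^ 4 * b) by ring,
      h.dat.ρ_mul _ _ (h.u_pow ha.2.1 1).1 (h.u_pow hb 3).1, h2, h19]
    decide
  · exact key a ha h1 h2

theorem sign_mul {a b : K} (ha : U A a) (hb : U A b) :
    r3 (ρ (a * b)) = r3 (ρ a) * r3 (ρ b) := by
  rw [h.dat.ρ_mul _ _ ha.1 hb.1, map_mul]

theorem sign_pow {a : K} (ha : U A a) (n : ℕ) : r3 (ρ (a ^ n)) = r3 (ρ a) ^ n := by
  induction n with
  | zero => rw [pow_zero, pow_zero, h.dat.ρ_one, map_one]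
  | succ n ih => rw [pow_succ, h.sign_mul (ha.pow n) ha, ih, pow_succ]

theorem sign_sq {a : K} (ha : U A a) : r3 (ρ a) ^ 2 = 1 := by
  have := h.sign_mul ha ha.inv
  rw [mul_inv_cancel₀ ha.1, h.dat.ρ_one, map_one] at this
  revert this
  generalize r3 (ρ a) = p
  generalize r3 (ρ a⁻¹) = q
  revert p q; decide

theorem res_eq {a a' : A} : IsLocalRing.residue A a = IsLocalRing.residue A a' ↔
    ∃ b ∈ A, (a : K) = a' + π * b := by
  rw [← sub_eq_zero, ← map_sub, IsLocalRing.residue_eq_zero_iff, IsLocalRing.mem_maximalIdeal,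
    mem_nonunits_iff]
  constructor
  · intro hn
    obtain ⟨b, hb, e⟩ := (h.dich (sub_mem a.2 a'.2)).resolve_left fun hu => hn
      (IsUnit.of_mul_eq_one ⟨_, hu.2.2⟩ (Subtype.ext (mul_inv_cancel₀ hu.1)))
    exact ⟨b, hb, by rw [← e]; ring⟩
  · rintro ⟨b, hb, e⟩ hu
    obtain ⟨c, hc⟩ := hu.exists_right_inv
    have hc' : ((a : K) - a') * c = 1 := congrArg Subtype.val hc
    refine h.not_u (mul_mem hb c.2) ?_
    rw [← mul_assoc, show π * b = a - a' by rw [e]; ring, hc']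
    exact U.one

theorem finite_res : Finite (IsLocalRing.ResidueField A) := by
  obtain ⟨z, hz, hz2⟩ := h.exists_z
  obtain ⟨s, hs⟩ := (IsLocalRing.residue_surjective (R := A)).hasRightInverse
  refine Finite.of_injective (fun x => (g ρ π (s x), g ρ π (z * s x))) fun x y e => ?_
  obtain ⟨e1, e2⟩ := Prod.ext_iff.1 e
  rw [← hs x, ← hs y, h.res_eq]
  have a1 := h.g_sub (s x).2 (s y).2 e1
  have a2 := h.g_sub (mul_mem hz.2.1 (s x).2) (mul_mem hz.2.1 (s y).2) e2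
  rw [← mul_sub] at a2
  obtain ⟨b, hb, e⟩ := (h.dich (sub_mem (s x).2 (s y).2)).resolve_left fun hu => by
    have b1 := h.sign_of_g hu a1
    have b2 := h.sign_of_g (hz.mul hu) a2
    rw [h.sign_mul hz hu, b1, hz2] at b2
    revert b2; decide
  exact ⟨b, hb, by rw [← e]; ring⟩

theorem exists_sq {a : K} (ha : U A a) (h1 : r3 (ρ a) = 1) :
    ∃ c, U A c ∧ ∃ b ∈ A, a = c ^ 2 + π * b := by
  have := h.finite_res
  obtain ⟨γ, hγ⟩ := IsCyclic.exists_monoid_generator (α := (IsLocalRing.ResidueField A)ˣ)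
  obtain ⟨c, hc⟩ := IsLocalRing.residue_surjective (R := A) (γ : IsLocalRing.ResidueField A)
  have hu : U A c := (h.dich c.2).resolve_right fun ⟨b, hb, e⟩ => γ.ne_zero (by
    rw [← hc, ← map_zero (IsLocalRing.residue A), h.res_eq]
    exact ⟨b, hb, by rw [e]; simp⟩)
  have key : ∀ a, U A a → ∃ n : ℕ, ∃ b ∈ A, a = (c : K) ^ n + π * b := fun a ha => by
    have n0 : IsLocalRing.residue A ⟨a, ha.2.1⟩ ≠ 0 := by
      rw [← map_zero (IsLocalRing.residue A), Ne, h.res_eq]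
      rintro ⟨b, hb, e⟩
      refine h.not_u hb ?_
      rwa [show π * b = a by simpa using e.symm]
    obtain ⟨n, hn⟩ := hγ (Units.mk0 _ n0)
    have e := congrArg Units.val hn
    simp only [Units.val_pow_eq_pow_val, Units.val_mk0] at e
    rw [← hc, ← map_pow] at e
    obtain ⟨b, hb, e⟩ := h.res_eq.1 e.symm
    exact ⟨n, b, hb, by simpa using e⟩
  obtain ⟨z, hz, hz2⟩ := h.exists_z
  obtain ⟨m, b, hb, e⟩ := key z hz
  rw [e, h.sign_add (hu.pow m) hb, h.sign_pow hu] at hz2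
  obtain ⟨n, b, hb, e⟩ := key a ha
  rw [e, h.sign_add (hu.pow n) hb, h.sign_pow hu] at h1
  rcases Nat.even_or_odd' n with ⟨k, rfl | rfl⟩
  · exact ⟨c ^ k, hu.pow k, b, hb, by rw [e]; ring⟩
  · rw [pow_succ, pow_mul, h.sign_sq hu, one_pow, one_mul] at h1
    rw [h1, one_pow] at hz2
    exact absurd hz2 (by decide)

theorem g_sq {a : K} (ha : U A a) (h1 : r3 (ρ a) = 1) :
    ∃ c, U A c ∧ g ρ π (-c ^ 2) = g ρ π (-a) := by
  obtain ⟨c, hc, b, hb, e⟩ := h.exists_sq ha h1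
  refine ⟨c, hc, ?_⟩
  rw [e, show -(c ^ 2 + π * b) = -c ^ 2 + π * -b by ring,
    h.g_add (neg_mem (hc.pow 2).2.1) (mul_mem h.mem (neg_mem hb)), h.g_pi (neg_mem hb), mul_one]

theorem exists_ker : ∃ a, U A a ∧ g ρ π a = 1 := by
  obtain ⟨z, hz, hz2⟩ := h.exists_z
  have s1 : r3 (ρ 1) = 1 := by rw [h.dat.ρ_one, map_one]
  have key : ∀ e : K, U A e → r3 (ρ e) = 1 → U A (z - e) := fun e he h1 =>
    (h.dich (sub_mem hz.2.1 he.2.1)).resolve_right fun ⟨b, hb, e1⟩ => by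
      rw [show z = e + π * b by rw [← e1]; ring, h.sign_add he hb, h1] at hz2
      revert hz2; decide
  by_contra hn
  push Not at hn
  have n1 := hn 1 U.one
  have n2 := hn z hz
  have n3 : g ρ π z ≠ g ρ π 1 := fun e =>
    hn _ (key 1 U.one s1) (h.g_sub hz.2.1 (one_mem A) e)
  have n4 : g ρ π z ≠ g ρ π (-1) := fun e =>
    hn _ (key (-1) U.one.neg (by rw [h.dat.ρ_neg, map_one])) (h.g_sub hz.2.1 U.one.neg.2.1 e)
  have n5 := h.g_neg (one_mem A)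
  have v1 := h.g_val (one_mem A)
  have v2 := h.g_val hz.2.1
  revert n1 n2 n3 n4 n5 v1 v2
  generalize g ρ π 1 = p
  generalize g ρ π (-1) = q
  generalize g ρ π z = r
  intro n1 n2 n3 n4 n5 v1 v2
  revert n1 n2 n3 n4 n5
  rcases v1 with rfl | rfl | rfl <;> rcases v2 with rfl | rfl | rfl <;> revert q <;> decide

theorem exists_val (θ : ZMod 9) (hθ : θ = 1 ∨ θ = 4 ∨ θ = 7) :
    ∃ c, U A c ∧ g ρ π (-c ^ 2) = θ := by
  by_cases h1 : θ = 1
  · obtain ⟨a, ha, e⟩ := h.exists_ker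
    obtain ⟨c, hc, e2⟩ := h.g_sq ha (h.sign_of_g ha e)
    have := h.g_neg ha.2.1
    rw [e, one_mul] at this
    exact ⟨c, hc, by rw [e2, this, h1]⟩
  · have : ∃ a ∈ A, g ρ π (a ^ 2) ≠ 1 := by
      by_contra hn
      push Not at hn
      obtain ⟨b, hb, h2⟩ := h.exists_g
      have m1 := h.u_two.div_mem (add_mem hb (one_mem A))
      have m2 := h.u_two.div_mem (sub_mem hb (one_mem A))
      have e : b = ((b + 1) / 2) ^ 2 - ((b - 1) / 2) ^ 2 := by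
        have := h.u_two.1
        field_simp; ring
      exact h2 (by
        rw [e]; exact h.g_sub (pow_mem m1 2) (pow_mem m2 2) (by rw [hn _ m1, hn _ m2]))
    obtain ⟨a, ha, h2⟩ := this
    have hu : U A a := (h.dich ha).resolve_right fun ⟨b, hb, e⟩ => h2 (by
      rw [e, show (π * b) ^ 2 = π * (π * b ^ 2) by ring, h.g_pi (mul_mem h.mem (pow_mem hb 2))])
    obtain ⟨c, hc, e2⟩ := h.g_sq (hu.pow 2).neg (by
      rw [h.dat.ρ_neg' (hu.pow 2).1, h.sign_pow hu, h.sign_sq hu])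
    rw [neg_neg] at e2
    have n5 := h.g_neg (pow_mem ha 2)
    have v1 := h.g_val (pow_mem ha 2)
    have : g ρ π (a ^ 2) = θ ∨ g ρ π (-a ^ 2) = θ := by
      revert h1 hθ h2 n5 v1
      generalize g ρ π (a ^ 2) = p
      generalize g ρ π (-a ^ 2) = q
      revert p q θ; decide
    rcases this with e | e
    · exact ⟨c, hc, e2.trans e⟩
    · exact ⟨a, hu, e⟩

omit h in
/-- The symmetric form of the discriminant. -/
def lam (a b c : ZMod 27) : ZMod 27 := (c - a - b) ^ 2 - 4 * a * b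

theorem triple {u u' u'' : K} (hu : U A u) (hu' : U A u') (hu'' : U A u'')
    (e : u + u' + u'' = 0) (h1 : r3 (ρ u) = 1) (n1 : ρ u ≠ ρ u') (n2 : ρ u ≠ ρ u'')
    (n3 : ρ u' ≠ ρ u'') : lam (ρ u) (ρ u') (ρ u'') ≠ 9 := by
  have a1 := hu'.mul hu.inv
  have a2 := hu''.neg.mul hu.inv
  have e1 : 1 + u' * u⁻¹ = -u'' * u⁻¹ := by
    have := hu.1
    field_simp; linear_combination e
  have b1 : ρ u' = ρ (u' * u⁻¹) * ρ u := by
    rw [← h.dat.ρ_mul _ _ a1.1 hu.1, inv_mul_cancel_right₀ hu.1]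
  have b2 : ρ u'' = ρ (-u'' * u⁻¹) * ρ u := by
    rw [← h.dat.ρ_mul _ _ a2.1 hu.1, inv_mul_cancel_right₀ hu.1, h.dat.ρ_neg' hu''.1]
  have t := (h.dat.all _ a1.1 (e1 ▸ a2.1)).t3 (h.w_u a1) (e1 ▸ h.w_u a2)
  rw [e1] at t
  have t' := t (fun e => n1 (by rw [b1, e, one_mul])) (fun e => n2 (by rw [b2, e, one_mul]))
    (fun e => n3 (by rw [b1, b2, e]))
  have e2 : lam (ρ u) (ρ u') (ρ u'') =
      ρ u ^ 2 * ((ρ (-u'' * u⁻¹) - 1 - ρ (u' * u⁻¹)) ^ 2 - 4 * ρ (u' * u⁻¹)) := by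
    unfold lam
    generalize ρ (-u'' * u⁻¹) = m at b2
    generalize ρ (u' * u⁻¹) = n at b1
    rw [b1, b2]; ring
  rw [e2]
  revert h1 t'
  generalize (ρ (-u'' * u⁻¹) - 1 - ρ (u' * u⁻¹)) ^ 2 - 4 * ρ (u' * u⁻¹) = l
  generalize ρ u = a
  revert a l; decide +kernel

omit h in
theorem fin1 : ∀ a a' : ZMod 27, r9 a = r9 a' → r3 a' = 1 → ∃ e : Fin 3, a = a' * 19 ^ e.val := by
  decide +kernel

omit h in
theorem fin2 : ∀ a : ZMod 27, r3 a = 1 → ∀ b : ZMod 27, r3 b = 1 → ∀ c : ZMod 27, r3 c = 1 →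
    r9 (a * b) * r9 c = 4 → ∃ p q r : Fin 3, a * 19 ^ p.val ≠ b * 19 ^ q.val ∧
      a * 19 ^ p.val ≠ c * 19 ^ r.val ∧ b * 19 ^ q.val ≠ c * 19 ^ r.val ∧
      lam (a * 19 ^ p.val) (b * 19 ^ q.val) (c * 19 ^ r.val) = 9 := by
  decide +kernel

omit h in
theorem fin3 : ∀ p q r e e' : Fin 3,
    (19 : ZMod 27) ^ e.val * 19 ^ e'.val = 19 ^ (p.val + q.val + r.val) → ∃ k k' : Fin 3,
      (19 : ZMod 27) ^ e.val * 19 ^ k.val = 19 ^ p.val ∧
      (19 : ZMod 27) ^ e'.val * 19 ^ k'.val = 19 ^ q.val ∧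
      (19 : ZMod 27) ^ (2 * (k.val + k'.val)) = 19 ^ r.val := by
  decide +kernel

omit h in
theorem fin4 : ∀ a : ZMod 27, r3 a = 1 → ∀ s t : ZMod 27, a * s = a * t → s = t := by
  decide +kernel

omit h in
theorem fin5 : ∀ c : ZMod 27, r3 c = 1 →
    ∃ θ : ZMod 9, (θ = 1 ∨ θ = 4 ∨ θ = 7) ∧ θ * r9 c = 4 := by
  decide +kernel

theorem r9_add {a d : K} (ha : a ∈ A) (hd : d ∈ A) :
    r9 (ρ (1 + π * (a + π ^ 2 * d))) = r9 (ρ (1 + π * a)) := by
  have u1 := h.u_add U.one ha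
  have m := u1.div_mem hd
  have e : 1 + π * (a + π ^ 2 * d) = (1 + π * a) * (1 + π ^ 3 * (d / (1 + π * a))) := by
    have := u1.1
    field_simp; ring
  rw [e, h.dat.ρ_mul _ _ u1.1 (h.u_pow m 2).1, map_mul, h.lev3 m, mul_one]

theorem false : False := by
  obtain ⟨b, hb, h19⟩ := h.exists_b0
  obtain ⟨c, hc, e3⟩ := h.three
  have sC := h.lev1 (neg_mem hc)
  obtain ⟨θ, hθ, eθ⟩ := fin5 _ sC
  obtain ⟨a, hu, ea⟩ := h.exists_val θ hθ
  have ha := hu.2.1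
  have sA := h.lev1 ha
  have sB := h.lev1 (neg_mem ha)
  have e0 : ρ (1 + π * a) * ρ (1 + π * -a) = ρ (1 + π * (π * -a ^ 2)) := by
    rw [← h.dat.ρ_mul _ _ (h.u_add U.one ha).1 (h.u_add U.one (neg_mem ha)).1]
    congr 1; ring
  obtain ⟨p, q, r, n1, n2, n3, hl⟩ := fin2 _ sA _ sB _ sC (by
    rw [e0, ← eθ, ← ea, g, pow_two π, mul_assoc π])
  obtain ⟨d, hd⟩ : ∃ d, d = -((p.val + q.val + r.val : ℕ) * b) / (2 * a) := ⟨_, rfl⟩
  have md : d ∈ A := hd ▸ (h.u_two.mul hu).div_mem (neg_mem (mul_mem (natCast_mem A _) hb))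
  have ed : 2 * a * d = -((p.val + q.val + r.val : ℕ) * b) := by
    rw [hd, mul_div_cancel₀ _ (h.u_two.mul hu).1]
  have m1 : a + π ^ 2 * d ∈ A := add_mem ha (mul_mem (pow_mem h.mem 2) md)
  have m2 : -a + π ^ 2 * -d ∈ A := add_mem (neg_mem ha) (mul_mem (pow_mem h.mem 2) (neg_mem md))
  obtain ⟨e, he⟩ := fin1 _ _ (h.r9_add ha md) sA
  obtain ⟨e', he'⟩ := fin1 _ _ (h.r9_add (neg_mem ha) (neg_mem md)) sB
  have e1 : ρ (1 + π * (a + π ^ 2 * d)) * ρ (1 + π * (-a + π ^ 2 * -d)) =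
      ρ (1 + π * (π * -a ^ 2)) * 19 ^ (p.val + q.val + r.val) := by
    rw [← h.dat.ρ_mul _ _ (h.u_add U.one m1).1 (h.u_add U.one m2).1,
      ← h.eta' hb h19 _ (mul_mem h.mem (neg_mem (pow_mem ha 2)))
        (neg_mem (mul_mem h.mem (pow_mem md 2)))]
    congr 1
    linear_combination (-π ^ 4) * ed
  rw [he, he', mul_mul_mul_comm, e0] at e1
  obtain ⟨k, k', f1, f2, f3⟩ := fin3 p q r e e'
    (fin4 _ (h.lev1 (mul_mem h.mem (neg_mem (pow_mem ha 2)))) _ _ e1)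
  have g1 := h.eta' hb h19 k m1 (zero_mem A)
  have g2 := h.eta' hb h19 k' m2 (zero_mem A)
  have m3 : -((k.val + k'.val : ℕ) * c * b) ∈ A :=
    neg_mem (mul_mem (mul_mem (natCast_mem A _) hc) hb)
  have g3 := h.eta' hb h19 (2 * (k.val + k'.val)) (neg_mem hc) m3
  rw [he, mul_assoc, f1] at g1
  rw [he', mul_assoc, f2] at g2
  rw [f3] at g3
  have uu : ∀ (c : K) (k : ℕ) (a : K), c ∈ A → a ∈ A →
      U A (1 + π * c + k * (π ^ 4 * b) + π ^ 5 * a) := fun c k a hc ha => by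
    have := h.u_add U.one (add_mem (add_mem hc (mul_mem (natCast_mem A k)
      (mul_mem (pow_mem h.mem 3) hb))) (mul_mem (pow_mem h.mem 4) ha))
    convert this using 1; ring
  refine h.triple (uu _ k _ m1 (zero_mem A)) (uu _ k' _ m2 (zero_mem A))
    (uu _ (2 * (k.val + k'.val)) _ (neg_mem hc) m3) ?_ ?_ (by rwa [g1, g2]) (by rwa [g1, g3])
    (by rwa [g2, g3]) (by rw [g1, g2, g3, hl])
  · push_cast
    linear_combination (1 + ((k.val : K) + k'.val) * π ^ 4 * b) * e3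
  · rw [g1, map_mul, sA, map_pow, show r3 19 = 1 by decide, one_pow, one_mul]

end Val

theorem Dat.false (h : Dat w ρ) : False := by
  obtain ⟨A, π, hv⟩ := h.exists_val
  exact hv.false

end Pool.Agent.Lib.MP_4a7e1d_al.Fin
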