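import Mathlib

/-!
A field with a real absolute value for which the triangle inequality is sharp somewhere on the
unit sphere embeds isometrically into the complex numbers.
-/

set_option autoImplicit false

namespace Pool.Agent.Lib.MP_4a7e1d_al

open Filter Topology

lemma binom_bound {F : Type*} [NormedField F] {u : F} (hu : ‖u‖ = 1) (h2 : ‖1 + u‖ = 2)
    (N : ℕ) (B : ℝ) (hB : ∀ k, k ≤ N → ‖((N.choose k : ℕ) : F)‖ ≤ B) :
    (2 : ℝ) ^ N ≤ (N + 1) * B := by
  rw [← h2, ← norm_pow, add_comm 1 u, add_pow]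
  refine (norm_sum_le _ _).trans ?_
  have : ∀ k ∈ Finset.range (N + 1), ‖u ^ k * 1 ^ (N - k) * ((N.choose k : ℕ) : F)‖ ≤ B := by
    intro k hk
    rw [Finset.mem_range] at hk
    simp only [one_pow, mul_one, norm_mul, norm_pow, hu, one_mul]
    exact hB k (by omega)
  refine (Finset.sum_le_card_nsmul _ _ _ this).trans ?_
  simp

lemma not_bdd {F : Type*} [NormedField F] {u : F} (hu : ‖u‖ = 1) (h2 : ‖1 + u‖ = 2) :
    ¬ ∀ n : ℕ, ‖(n : F)‖ ≤ 1 := by
  intro h
  have := binom_bound hu h2 2 1 (fun k _ => h _)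
  norm_num at this

lemma charZero_of {F : Type*} [NormedField F] {u : F} (hu : ‖u‖ = 1) (h2 : ‖1 + u‖ = 2) :
    CharZero F := by
  obtain ⟨p, hp⟩ := CharP.exists F
  rcases CharP.char_is_prime_or_zero F p with h | h
  · exfalso
    apply not_bdd hu h2
    intro n
    have : Fact p.Prime := ⟨h⟩
    have e : (n : F) ^ p = n := by
      have := map_natCast (frobenius F p) n
      rwa [frobenius_def] at this
    have e' : ‖(n : F)‖ ^ p = ‖(n : F)‖ := by rw [← norm_pow, e]
    by_contra hlt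
    push Not at hlt
    have h1 : ‖(n : F)‖ ^ 1 < ‖(n : F)‖ ^ p := pow_lt_pow_right₀ hlt h.one_lt
    rw [pow_one, e'] at h1
    exact lt_irrefl _ h1
  · subst h
    exact CharP.charP_to_charZero F

lemma norm_ratCast_eq {F : Type*} [NormedField F] [CharZero F] {u : F} (hu : ‖u‖ = 1)
    (h2 : ‖1 + u‖ = 2) (q : ℚ) : ‖(q : F)‖ = |(q : ℝ)| := by
  let f : AbsoluteValue ℚ ℝ :=
    { toFun := fun q => ‖(q : F)‖
      map_mul' := fun a b => by simp
      nonneg' := fun _ => norm_nonneg _
      eq_zero' := fun a => by simp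
      add_le' := fun a b => by simpa using norm_add_le (a : F) (b : F) }
  have hf : ∀ q : ℚ, f q = ‖(q : F)‖ := fun _ => rfl
  have hnb : ¬ ∀ n : ℕ, f n ≤ 1 := by
    intro h
    apply not_bdd hu h2
    intro n
    simpa [hf] using h n
  have he := (Rat.AbsoluteValue.equiv_real_of_unbounded hnb).symm
  obtain ⟨s, hs, hsf⟩ := AbsoluteValue.isEquiv_iff_exists_rpow_eq.mp he
  have hsf' : ∀ q : ℚ, ‖(q : F)‖ = |(q : ℝ)| ^ s := by
    intro q
    have := congrFun hsf q
    simp only [Rat.AbsoluteValue.real_eq_abs, Rat.cast_abs] at this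
    rw [this, hf]
  have hle : s ≤ 1 := by
    have h := hsf' 2
    have h' : ‖((2 : ℚ) : F)‖ ≤ 2 := by
      have : ((2 : ℚ) : F) = 1 + 1 := by push_cast; norm_num
      rw [this]
      refine (norm_add_le _ _).trans ?_
      norm_num
    rw [h] at h'
    have e : |((2 : ℚ) : ℝ)| = 2 := by norm_num
    rw [e] at h'
    by_contra hlt
    push Not at hlt
    have := Real.rpow_lt_rpow_of_exponent_lt (by norm_num : (1 : ℝ) < 2) hlt
    rw [Real.rpow_one] at this
    linarith
  have hge : 1 ≤ s := by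
    by_contra hlt
    push Not at hlt
    have key : ∀ N : ℕ, (2 : ℝ) ^ N ≤ (N + 1) * ((2 : ℝ) ^ s) ^ N := by
      intro N
      apply binom_bound hu h2
      intro k _
      have := hsf' (N.choose k : ℕ)
      simp only [Rat.cast_natCast, Nat.abs_cast] at this
      rw [this, ← Real.rpow_natCast, ← Real.rpow_mul (by norm_num), mul_comm,
        Real.rpow_mul (by norm_num), Real.rpow_natCast]
      apply Real.rpow_le_rpow (by positivity) _ hs.le
      exact_mod_cast Nat.choose_le_two_pow N k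
    set r : ℝ := (2 : ℝ) ^ s / 2 with hr
    have hr0 : 0 ≤ r := by positivity
    have hr1 : r < 1 := by
      have := Real.rpow_lt_rpow_of_exponent_lt (by norm_num : (1 : ℝ) < 2) hlt
      rw [Real.rpow_one] at this
      rw [hr]; linarith
    have key2 : ∀ N : ℕ, 1 ≤ (N : ℝ) * r ^ N + r ^ N := by
      intro N
      have := key N
      have h2N : (0 : ℝ) < 2 ^ N := by positivity
      rw [hr, div_pow, ← mul_div_assoc, ← add_div, le_div_iff₀ h2N]
      linarith
    have t1 : Tendsto (fun N : ℕ => (N : ℝ) * r ^ N + r ^ N) atTop (𝓝 (0 + 0)) :=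
      (tendsto_self_mul_const_pow_of_lt_one hr0 hr1).add
        (tendsto_pow_atTop_nhds_zero_of_lt_one hr0 hr1)
    have := ge_of_tendsto' t1 key2
    norm_num at this
  rw [hsf', le_antisymm hle hge, Real.rpow_one]

lemma norm_of_algEquiv_complex {F : Type*} [NormedField F] [NormedAlgebra ℝ F]
    (e : F ≃ₐ[ℝ] ℂ) (x : F) : ‖e x‖ = ‖x‖ := by
  have hI : ‖e.symm Complex.I‖ = 1 := by
    have h : (e.symm Complex.I) ^ 2 = -1 := by
      rw [← map_pow, Complex.I_sq, map_neg, map_one]
    have h' : ‖e.symm Complex.I‖ ^ 2 = 1 := by rw [← norm_pow, h]; simp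
    exact (pow_eq_one_iff_of_nonneg (norm_nonneg _) two_ne_zero).mp h'
  have hb : ∀ z : ℂ, ‖e.symm z‖ ≤ 2 * ‖z‖ := by
    intro z
    have : z = z.re • (1 : ℂ) + z.im • Complex.I := by
      apply Complex.ext <;> simp
    conv_lhs => rw [this, map_add, map_smul, map_smul, map_one]
    refine (norm_add_le _ _).trans ?_
    rw [norm_smul, norm_smul, hI, norm_one, mul_one, mul_one, Real.norm_eq_abs, Real.norm_eq_abs]
    have h1 := Complex.abs_re_le_norm z
    have h2 := Complex.abs_im_le_norm z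
    linarith
  have hle : ∀ z : ℂ, ‖e.symm z‖ ≤ ‖z‖ := by
    intro z
    by_cases hz : z = 0
    · simp [hz]
    have hz' : 0 < ‖z‖ := norm_pos_iff.mpr hz
    by_contra hlt
    push Not at hlt
    have h1 : 1 < ‖e.symm z‖ / ‖z‖ := by rwa [one_lt_div hz']
    obtain ⟨n, hn⟩ := pow_unbounded_of_one_lt 2 h1
    have := hb (z ^ n)
    rw [map_pow, norm_pow, norm_pow] at this
    rw [div_pow, lt_div_iff₀ (by positivity)] at hn
    linarith
  by_cases hx : x = 0
  · simp [hx]
  apply le_antisymm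
  · have h := hle (e x)⁻¹
    rw [← map_inv₀, e.symm_apply_apply, map_inv₀, norm_inv, norm_inv] at h
    have h1 : 0 < ‖x‖ := norm_pos_iff.mpr hx
    have h2 : 0 < ‖e x‖ := norm_pos_iff.mpr (by simpa using hx)
    exact (inv_le_inv₀ h1 h2).mp h
  · simpa using hle (e x)

lemma exists_embedding_of_complete {F : Type*} [NormedField F] [CompleteSpace F] {u : F}
    (hu : ‖u‖ = 1) (h2 : ‖1 + u‖ = 2) : ∃ σ : F →+* ℂ, ∀ x, ‖σ x‖ = ‖x‖ := by
  have := charZero_of hu h2
  have hq := norm_ratCast_eq hu h2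
  have hiso : Isometry (Rat.castHom F) := by
    apply Isometry.of_dist_eq
    intro a b
    rw [dist_eq_norm, ← map_sub, Rat.dist_eq]
    simpa using hq (a - b)
  have ui : IsUniformInducing (Rat.castHom ℝ) := Rat.isUniformEmbedding_coe_real.isUniformInducing
  have dr : DenseRange (Rat.castHom ℝ) := Rat.denseRange_cast
  let φ : ℝ →+* F := IsDenseInducing.extendRingHom ui dr hiso.uniformContinuous
  have hφc : Continuous φ := (uniformContinuous_uniformly_extend ui dr hiso.uniformContinuous).continuous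
  have hφq : ∀ q : ℚ, φ (q : ℝ) = (q : F) := fun q => map_ratCast φ q
  have hφn : ∀ r : ℝ, ‖φ r‖ = ‖r‖ := by
    intro r
    refine DenseRange.induction_on dr r (isClosed_eq hφc.norm continuous_norm) ?_
    intro q
    simp only [eq_ratCast]
    rw [hφq, hq, Real.norm_eq_abs]
  let _ : Algebra ℝ F := φ.toAlgebra
  let _ : NormedAlgebra ℝ F :=
    { norm_smul_le := fun r x => by
        rw [Algebra.smul_def, norm_mul]
        change ‖φ r‖ * _ ≤ _
        rw [hφn] }
  rcases NormedAlgebra.Real.nonempty_algEquiv_or F with ⟨⟨e⟩⟩ | ⟨⟨e⟩⟩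
  · refine ⟨Complex.ofRealHom.comp e.toRingEquiv.toRingHom, fun x => ?_⟩
    have hx : x = algebraMap ℝ F (e x) := by
      apply e.injective
      simp
    conv_rhs => rw [hx]
    simp
  · exact ⟨e.toRingEquiv.toRingHom, fun x => norm_of_algEquiv_complex e x⟩

theorem exists_embedding {K : Type*} [Field K] (v : AbsoluteValue K ℝ) {u : K}
    (hu : v u = 1) (h2 : v (1 + u) = 2) : ∃ σ : K →+* ℂ, ∀ x, ‖σ x‖ = v x := by
  let ι : K →+* v.Completion :=
    UniformSpace.Completion.coeRingHom.comp (WithAbs.equiv v).symm.toRingHom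
  have hι : ∀ x, ‖ι x‖ = v x := by
    intro x
    change ‖((WithAbs.toAbs v x : WithAbs v) : v.Completion)‖ = v x
    rw [UniformSpace.Completion.norm_coe, WithAbs.norm_toAbs_eq]
  obtain ⟨σ, hσ⟩ := exists_embedding_of_complete (F := v.Completion) (u := ι u)
    (by rw [hι, hu]) (by rw [← map_one ι, ← map_add, hι, h2])
  exact ⟨σ.comp ι, fun x => by rw [RingHom.comp_apply, hσ, hι]⟩

/-- No field carries an absolute value with rational squares realising the three values
`4`, `2`, `3` of `v (1 + u) ^ 2` on the unit sphere. -/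
theorem no_field {K : Type*} [Field K] (v : AbsoluteValue K ℝ)
    (hrat : ∀ x, ∃ q : ℚ, v x ^ 2 = q)
    {u a b : K} (hu : v u = 1) (h2 : v (1 + u) = 2)
    (ha : v a = 1) (ha2 : v (1 + a) ^ 2 = 2) (hb : v b = 1) (hb2 : v (1 + b) ^ 2 = 3) : False := by
  obtain ⟨σ, hσ⟩ := exists_embedding v hu h2
  obtain ⟨q, hq⟩ := hrat (1 + a * b)
  have sq : ∀ x, v x ^ 2 = (σ x).re ^ 2 + (σ x).im ^ 2 := by
    intro x
    rw [← hσ, Complex.sq_norm, Complex.normSq_apply]; ring
  have e1 := sq a
  have e2 := sq (1 + a)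
  have e3 := sq b
  have e4 := sq (1 + b)
  have e5 := sq (1 + a * b)
  rw [ha] at e1
  rw [ha2] at e2
  rw [hb] at e3
  rw [hb2] at e4
  rw [hq] at e5
  simp only [map_add, map_one, map_mul, Complex.add_re, Complex.one_re, Complex.add_im,
    Complex.one_im, Complex.mul_re, Complex.mul_im] at e2 e4 e5
  generalize (σ a).re = a1 at *
  generalize (σ a).im = a2 at *
  generalize (σ b).re = b1 at *
  generalize (σ b).im = b2 at *
  have ha1 : a1 = 0 := by nlinarith
  have hb1 : b1 = 1 / 2 := by nlinarith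
  subst ha1 hb1
  have ha2' : a2 ^ 2 = 1 := by linarith
  have hb2' : b2 ^ 2 = 3 / 4 := by linarith
  have h3 : (2 - (q : ℝ)) = 2 * a2 * b2 := by
    linear_combination -e5 - (b2 ^ 2 + 1 / 4) * ha2' - hb2'
  have h4 : (2 - (q : ℝ)) ^ 2 = 3 := by
    rw [h3]
    linear_combination 4 * b2 ^ 2 * ha2' + 4 * hb2'
  have h5 : √3 = |2 - (q : ℝ)| := by
    rw [← h4, Real.sqrt_sq_eq_abs]
  have hirr : Irrational √3 := by
    simpa using Nat.Prime.irrational_sqrt (p := 3) (by norm_num)
  apply hirr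
  exact ⟨|2 - q|, by rw [h5]; push_cast; rfl⟩

end Pool.Agent.Lib.MP_4a7e1d_al
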