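import Mathlib
import Pool.Agent.Lib.MP_4a7e1d_al.Ostrowski

/-!
The quotient of the rational Hamilton quaternions by the group of elements of norm one is a
hyperfield quotient of a skew field which is not a quotient of any field.
-/

set_option autoImplicit false

open scoped Quaternion

namespace Pool.Agent.Results.MP_4a7e1d_al.SkewNotField

universe u v

/-- The underlying set `{0} ∪ Fˣ/Γ` of the quotient `F/Γ`. -/
abbrev Car {F : Type v} [DivisionRing F] (Γ : Subgroup Fˣ) : Type v := WithZero (Fˣ ⧸ Γ)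

open Classical in
/-- The class `[x]` of `x : F` in `F/Γ = {0} ∪ Fˣ/Γ`. -/
noncomputable def cls {F : Type v} [DivisionRing F] (Γ : Subgroup Fˣ) (x : F) : Car Γ :=
  if h : x = 0 then 0 else ((QuotientGroup.mk (Units.mk0 x h) : Fˣ ⧸ Γ) : WithZero (Fˣ ⧸ Γ))

/-- The induced multiplication on `F/Γ`. -/
def hmul {F : Type v} [DivisionRing F] (Γ : Subgroup Fˣ) [Γ.Normal] (a b : Car Γ) : Car Γ :=
  a * b

/-- The hypersum of two classes: all classes `[x + y]` with `x`, `y` representatives. -/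
def hadd {F : Type v} [DivisionRing F] (Γ : Subgroup Fˣ) (a b : Car Γ) : Set (Car Γ) :=
  {c | ∃ x y : F, cls Γ x = a ∧ cls Γ y = b ∧ cls Γ (x + y) = c}

/-- `F/Γ` and `K/Δ` are isomorphic as hyperfields. -/
def Iso {F : Type v} [DivisionRing F] (Γ : Subgroup Fˣ) [Γ.Normal]
    {K : Type u} [DivisionRing K] (Δ : Subgroup Kˣ) [Δ.Normal] : Prop :=
  ∃ f : Car Γ → Car Δ, Function.Bijective f ∧ f (cls Γ 0) = cls Δ 0 ∧
    (∀ a b, f (hmul Γ a b) = hmul Δ (f a) (f b)) ∧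
    ∀ a b, f '' hadd Γ a b = hadd Δ (f a) (f b)

lemma cls_eq_zero {F : Type v} [DivisionRing F] (Γ : Subgroup Fˣ) (x : F) :
    cls Γ x = 0 ↔ x = 0 := by
  unfold cls
  split_ifs with h <;> simp [h]

lemma cls_mul {F : Type v} [DivisionRing F] (Γ : Subgroup Fˣ) [Γ.Normal] (x y : F) :
    cls Γ (x * y) = cls Γ x * cls Γ y := by
  by_cases hx : x = 0
  · simp [hx, cls]
  by_cases hy : y = 0
  · simp [hy, cls]
  have hxy : x * y ≠ 0 := mul_ne_zero hx hy
  simp only [cls, hx, hy, hxy, dite_false]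
  rw [← WithZero.coe_mul, ← QuotientGroup.mk_mul, Units.mk0_mul]

/-- The norm on units of the rational quaternions. -/
noncomputable def nrmU : (ℍ[ℚ])ˣ →* ℚˣ := Units.map (Quaternion.normSq : ℍ[ℚ] →*₀ ℚ).toMonoidHom

/-- The norm on the quotient. -/
noncomputable def nrmQ (a : WithZero ((ℍ[ℚ])ˣ ⧸ nrmU.ker)) : ℚ :=
  WithZero.recZeroCoe 0 (fun q => ((QuotientGroup.kerLift nrmU q : ℚˣ) : ℚ)) a

lemma nrmQ_cls (x : ℍ[ℚ]) : nrmQ (cls nrmU.ker x) = Quaternion.normSq x := by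
  by_cases hx : x = 0
  · simp [hx, cls, nrmQ]
  · simp only [cls, hx, nrmQ, dite_false, WithZero.recZeroCoe_coe]
    rw [QuotientGroup.kerLift_mk]
    rfl

lemma cls_surj {F : Type v} [DivisionRing F] (Γ : Subgroup Fˣ) (a : WithZero (Fˣ ⧸ Γ)) :
    ∃ x, cls Γ x = a := by
  induction a using WithZero.recZeroCoe with
  | zero => exact ⟨0, by simp [cls]⟩
  | coe q =>
    obtain ⟨x, rfl⟩ := QuotientGroup.mk_surjective q
    exact ⟨x, by simp [cls]⟩

lemma sqrt_normSq_add (a b : ℍ[ℚ]) :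
    √((Quaternion.normSq (a + b) : ℚ) : ℝ) ≤
      √((Quaternion.normSq a : ℚ) : ℝ) + √((Quaternion.normSq b : ℚ) : ℝ) := by
  simp only [Quaternion.normSq_def', Quaternion.re_add, Quaternion.imI_add, Quaternion.imJ_add,
    Quaternion.imK_add]
  push_cast
  generalize (a.re : ℝ) = a1, (a.imI : ℝ) = a2, (a.imJ : ℝ) = a3, (a.imK : ℝ) = a4,
    (b.re : ℝ) = b1, (b.imI : ℝ) = b2, (b.imJ : ℝ) = b3, (b.imK : ℝ) = b4
  have hA : 0 ≤ a1 ^ 2 + a2 ^ 2 + a3 ^ 2 + a4 ^ 2 := by positivity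
  have hB : 0 ≤ b1 ^ 2 + b2 ^ 2 + b3 ^ 2 + b4 ^ 2 := by positivity
  have cs : a1 * b1 + a2 * b2 + a3 * b3 + a4 * b4 ≤
      √(a1 ^ 2 + a2 ^ 2 + a3 ^ 2 + a4 ^ 2) * √(b1 ^ 2 + b2 ^ 2 + b3 ^ 2 + b4 ^ 2) := by
    rw [← Real.sqrt_mul hA]
    apply Real.le_sqrt_of_sq_le
    nlinarith [sq_nonneg (a1 * b2 - a2 * b1), sq_nonneg (a1 * b3 - a3 * b1),
      sq_nonneg (a1 * b4 - a4 * b1), sq_nonneg (a2 * b3 - a3 * b2),
      sq_nonneg (a2 * b4 - a4 * b2), sq_nonneg (a3 * b4 - a4 * b3)]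
  rw [Real.sqrt_le_left (by positivity), add_sq (√_), Real.sq_sqrt hA, Real.sq_sqrt hB]
  nlinarith

theorem result :
    ∃ (F : Type) (_ : DivisionRing F) (Γ : Subgroup Fˣ) (_ : Γ.Normal),
      (∀ a b : Fˣ ⧸ Γ, a * b = b * a) ∧
      ∀ (K : Type u) [Field K] (Δ : Subgroup Kˣ), ¬ Iso Γ Δ := by
  refine ⟨ℍ[ℚ], inferInstance, nrmU.ker, inferInstance, ?_, ?_⟩
  · intro a b
    apply QuotientGroup.kerLift_injective nrmU
    rw [map_mul, map_mul, mul_comm]
  rintro K _ Δ ⟨f', hbij, h0', hmul', hadd''⟩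
  let f : WithZero ((ℍ[ℚ])ˣ ⧸ nrmU.ker) ≃ WithZero (Kˣ ⧸ Δ) := Equiv.ofBijective f' hbij
  have h0 : f 0 = 0 := by
    rw [(cls_eq_zero _ _).mpr rfl, (cls_eq_zero _ _).mpr rfl] at h0'
    exact h0'
  have hmul : ∀ a b, f (a * b) = f a * f b := hmul'
  have hadd' : ∀ a b, f '' hadd nrmU.ker a b = hadd Δ (f a) (f b) := hadd''
  clear_value f
  have hsymm : ∀ a b, f.symm (a * b) = f.symm a * f.symm b := by
    intro a b
    apply f.injective
    simp [hmul]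
  have hN0 : ∀ a, 0 ≤ nrmQ a := by
    intro a
    obtain ⟨x, rfl⟩ := cls_surj _ a
    rw [nrmQ_cls]
    exact Quaternion.normSq_nonneg
  have hNmul : ∀ a b, nrmQ (a * b) = nrmQ a * nrmQ b := by
    intro a b
    obtain ⟨x, rfl⟩ := cls_surj _ a
    obtain ⟨y, rfl⟩ := cls_surj _ b
    rw [← cls_mul, nrmQ_cls, nrmQ_cls, nrmQ_cls, map_mul]
  have hNz : ∀ a, nrmQ a = 0 ↔ a = 0 := by
    intro a
    obtain ⟨x, rfl⟩ := cls_surj _ a
    rw [nrmQ_cls, cls_eq_zero, Quaternion.normSq_eq_zero]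
  let v : AbsoluteValue K ℝ :=
    { toFun := fun x => √((nrmQ (f.symm (cls Δ x)) : ℚ) : ℝ)
      map_mul' := fun x y => by
        rw [cls_mul, hsymm, hNmul]
        push_cast
        rw [Real.sqrt_mul (by exact_mod_cast hN0 _)]
      nonneg' := fun _ => Real.sqrt_nonneg _
      eq_zero' := fun x => by
        rw [Real.sqrt_eq_zero (by exact_mod_cast hN0 _), Rat.cast_eq_zero, hNz,
          Equiv.symm_apply_eq, h0, cls_eq_zero]
      add_le' := fun x y => by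
        have h1 : cls Δ (x + y) ∈
            hadd Δ (f (f.symm (cls Δ x))) (f (f.symm (cls Δ y))) :=
          ⟨x, y, by simp, by simp, rfl⟩
        rw [← hadd'] at h1
        obtain ⟨_, ⟨a, b, ha, hb, rfl⟩, hc⟩ := h1
        rw [← hc, ← ha, ← hb, Equiv.symm_apply_apply, nrmQ_cls, nrmQ_cls, nrmQ_cls]
        exact sqrt_normSq_add a b }
  have hv : ∀ x, v x ^ 2 = (nrmQ (f.symm (cls Δ x)) : ℚ) := fun x =>
    Real.sq_sqrt (by exact_mod_cast hN0 _)
  have key : ∀ a : ℍ[ℚ], Quaternion.normSq a = 1 →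
      ∃ u : K, v u = 1 ∧ v (1 + u) ^ 2 = (Quaternion.normSq (1 + a) : ℚ) := by
    intro a ha
    have h1 : f (cls _ (1 + a)) ∈ f '' hadd nrmU.ker (cls _ 1) (cls _ a) :=
      ⟨_, ⟨1, a, rfl, rfl, rfl⟩, rfl⟩
    rw [hadd'] at h1
    obtain ⟨x, y, hx, hy, hxy⟩ := h1
    have vx : v x = 1 := by
      have := hv x
      rw [hx, Equiv.symm_apply_apply, nrmQ_cls, map_one, Rat.cast_one] at this
      exact (pow_eq_one_iff_of_nonneg (v.nonneg _) two_ne_zero).mp this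
    have vy : v y = 1 := by
      have := hv y
      rw [hy, Equiv.symm_apply_apply, nrmQ_cls, ha, Rat.cast_one] at this
      exact (pow_eq_one_iff_of_nonneg (v.nonneg _) two_ne_zero).mp this
    have vxy := hv (x + y)
    rw [hxy, Equiv.symm_apply_apply, nrmQ_cls] at vxy
    have hx0 : x ≠ 0 := by
      rintro rfl
      simp at vx
    refine ⟨y / x, by rw [map_div₀, vx, vy, div_one], ?_⟩
    have : 1 + y / x = (x + y) / x := by field_simp
    rw [this, map_div₀, vx, div_one, vxy]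
  obtain ⟨u, hu, hu2⟩ := key 1 (by simp)
  obtain ⟨a, ha, ha2⟩ := key ⟨0, 1, 0, 0⟩ (by simp [Quaternion.normSq_def'])
  obtain ⟨b, hb, hb2⟩ := key ⟨1 / 2, 1 / 2, 1 / 2, 1 / 2⟩ (by
    simp [Quaternion.normSq_def']; norm_num)
  refine Pool.Agent.Lib.MP_4a7e1d_al.no_field v (fun x => ⟨_, hv x⟩) hu ?_ ha ?_ hb ?_
  · have : v (1 + u) ^ 2 = 2 ^ 2 := by
      rw [hu2]; simp [Quaternion.normSq_def']; norm_num
    exact (pow_left_inj₀ (v.nonneg _) (by norm_num) two_ne_zero).mp this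
  · rw [ha2]; simp [Quaternion.normSq_def']; norm_num
  · rw [hb2]; simp [Quaternion.normSq_def']; norm_num

end Pool.Agent.Results.MP_4a7e1d_al.SkewNotField
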